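import Pool.Agent.Y293.OV.Sets

/-!
# Box dimension of homogeneous self-similar sets with arbitrary overlaps
-/

set_option autoImplicit false

open Finset Filter MeasureTheory Topology

namespace Pool.Agent.Y293.OV

open H517.EO

/-- least number of sets of diameter at most `ε` which cover `X` -/
noncomputable def cov (X : Set ℝ) (ε : ℝ) : ℕ :=
  sInf {m : ℕ | ∃ U : Fin m → Set ℝ, (∀ i, Metric.ediam (U i) ≤ ENNReal.ofReal ε) ∧ X ⊆ ⋃ i, U i}

theorem cov_le {X : Set ℝ} {ε : ℝ} {ι : Type} [Fintype ι] (U : ι → Set ℝ)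
    (h1 : ∀ i, Metric.ediam (U i) ≤ ENNReal.ofReal ε) (h2 : X ⊆ ⋃ i, U i) :
    cov X ε ≤ Fintype.card ι := by
  apply Nat.sInf_le
  refine ⟨fun i => U ((Fintype.equivFin ι).symm i), fun i => h1 _, fun x hx => ?_⟩
  obtain ⟨i, hi⟩ := Set.mem_iUnion.1 (h2 hx)
  exact Set.mem_iUnion.2 ⟨Fintype.equivFin ι i, by simpa using hi⟩

theorem cov_interval {X : Set ℝ} {a L ε : ℝ} (hX : X ⊆ Set.Icc a (a + L)) (hε : 0 < ε) :
    cov X ε ≤ ⌊L / ε⌋₊ + 1 := by
  have h := cov_le (X := X) (ε := ε) (ι := Fin (⌊L / ε⌋₊ + 1))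
    (fun i => Set.Icc (a + (i : ℕ) * ε) (a + ((i : ℕ) + 1) * ε)) (fun i => by
      rw [Real.ediam_Icc]
      apply ENNReal.ofReal_le_ofReal
      linarith) (by
      intro x hx
      obtain ⟨hx1, hx2⟩ := hX hx
      have h0 : 0 ≤ (x - a) / ε := div_nonneg (by linarith) hε.le
      have h1 : ⌊(x - a) / ε⌋₊ ≤ ⌊L / ε⌋₊ := by
        apply Nat.floor_le_floor
        apply div_le_div_of_nonneg_right _ hε.le
        linarith
      have h2 : (⌊(x - a) / ε⌋₊ : ℝ) ≤ (x - a) / ε := Nat.floor_le h0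
      have h3 : (x - a) / ε < ⌊(x - a) / ε⌋₊ + 1 := Nat.lt_floor_add_one _
      rw [le_div_iff₀ hε] at h2
      rw [div_lt_iff₀ hε] at h3
      refine Set.mem_iUnion.2 ⟨⟨⌊(x - a) / ε⌋₊, by omega⟩, ?_, ?_⟩
      · simp only
        linarith
      · simp only
        linarith)
  rwa [Fintype.card_fin] at h

/-- the infimum in `cov` is attained for bounded sets -/
theorem cov_spec {X : Set ℝ} (hX : Bornology.IsBounded X) {ε : ℝ} (hε : 0 < ε) :
    ∃ U : Fin (cov X ε) → Set ℝ, (∀ i, Metric.ediam (U i) ≤ ENNReal.ofReal ε) ∧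
      X ⊆ ⋃ i, U i := by
  have hne : {m : ℕ | ∃ U : Fin m → Set ℝ, (∀ i, Metric.ediam (U i) ≤ ENNReal.ofReal ε) ∧
      X ⊆ ⋃ i, U i}.Nonempty := by
    obtain ⟨R, hR⟩ := hX.subset_closedBall 0
    rw [Real.closedBall_eq_Icc] at hR
    refine ⟨_, fun i : Fin (⌊(2 * R) / ε⌋₊ + 1) => Set.Icc ((0 - R) + (i : ℕ) * ε)
      ((0 - R) + ((i : ℕ) + 1) * ε), fun i => ?_, ?_⟩
    · rw [Real.ediam_Icc]
      apply ENNReal.ofReal_le_ofReal
      linarith
    · intro x hx
      obtain ⟨hx1, hx2⟩ := hR hx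
      have h0 : 0 ≤ (x - (0 - R)) / ε := div_nonneg (by linarith) hε.le
      have h1 : ⌊(x - (0 - R)) / ε⌋₊ ≤ ⌊(2 * R) / ε⌋₊ := by
        apply Nat.floor_le_floor
        apply div_le_div_of_nonneg_right _ hε.le
        linarith
      have h2 : (⌊(x - (0 - R)) / ε⌋₊ : ℝ) ≤ (x - (0 - R)) / ε := Nat.floor_le h0
      have h3 : (x - (0 - R)) / ε < ⌊(x - (0 - R)) / ε⌋₊ + 1 := Nat.lt_floor_add_one _
      rw [le_div_iff₀ hε] at h2
      rw [div_lt_iff₀ hε] at h3
      refine Set.mem_iUnion.2 ⟨⟨⌊(x - (0 - R)) / ε⌋₊, by omega⟩, ?_, ?_⟩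
      · simp only
        linarith
      · simp only
        linarith
  exact Nat.sInf_mem hne

theorem cov_pos {X : Set ℝ} (hne : X.Nonempty) (hX : Bornology.IsBounded X) {ε : ℝ} (hε : 0 < ε) :
    0 < cov X ε := by
  obtain ⟨U, -, hU⟩ := cov_spec hX hε
  obtain ⟨x, hx⟩ := hne
  obtain ⟨i, -⟩ := Set.mem_iUnion.1 (hU hx)
  exact i.pos

/-- the Hausdorff dimension is at most the lower box dimension -/
theorem box_lower {X : Set ℝ} (hne : X.Nonempty) (hX : Bornology.IsBounded X) {s : ℝ}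
    (hs : ENNReal.ofReal s ≤ dimH X) {c : ℝ} (hc : c < s) :
    ∀ᶠ ε in 𝓝[>] (0 : ℝ), c ≤ Real.log (cov X ε) / Real.log (1 / ε) := by
  have hsmall : ∀ᶠ ε in 𝓝[>] (0 : ℝ), 0 < ε ∧ ε < 1 := by
    filter_upwards [Ioo_mem_nhdsGT (show (0 : ℝ) < 1 from one_pos)] with ε hε
    exact ⟨hε.1, hε.2⟩
  by_cases hc0 : c ≤ 0
  · filter_upwards [hsmall] with ε hε
    have h1 : 0 ≤ Real.log (cov X ε) := Real.log_natCast_nonneg _
    have h2 : 0 < Real.log (1 / ε) := Real.log_pos (by
      rw [lt_div_iff₀ hε.1]; linarith [hε.2])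
    exact hc0.trans (div_nonneg h1 h2.le)
  push Not at hc0
  by_contra hnot
  rw [Filter.not_eventually] at hnot
  -- a sequence
  have hseq : ∀ n : ℕ, ∃ ε : ℝ, 0 < ε ∧ ε < 1 ∧ ε < 1 / ((n : ℝ) + 1) ∧
      Real.log (cov X ε) / Real.log (1 / ε) < c := by
    intro n
    have h1 : ∀ᶠ ε in 𝓝[>] (0 : ℝ), ε < 1 / ((n : ℝ) + 1) := by
      filter_upwards [Ioo_mem_nhdsGT (show (0 : ℝ) < 1 / ((n : ℝ) + 1) by positivity)] with ε hε
      exact hε.2
    obtain ⟨ε, hε, hε2, hε3⟩ := (hnot.and_eventually (hsmall.and h1)).exists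
    exact ⟨ε, hε2.1, hε2.2, hε3, not_le.1 hε⟩
  choose e he0 he1 he2 he3 using hseq
  set c' : ℝ := (c + s) / 2 with hc'
  have hcc' : c < c' := by rw [hc']; linarith
  have hc's : c' < s := by rw [hc']; linarith
  have hc'0 : 0 < c' := hc0.trans hcc'
  choose U hU1 hU2 using fun n => cov_spec hX (he0 n)
  have he_lim : Tendsto e atTop (𝓝 0) :=
    squeeze_zero (fun n => (he0 n).le) (fun n => (he2 n).le) tendsto_one_div_add_atTop_nhds_zero_nat
  have key := Measure.hausdorffMeasure_le_liminf_sum (X := ℝ) (β := ℕ)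
    (ι := fun n => Fin (cov X (e n))) c' X (l := atTop) (fun n => ENNReal.ofReal (e n))
    (by
      have := (ENNReal.continuous_ofReal.tendsto 0).comp he_lim
      simpa [Function.comp_def] using this)
    (fun n i => U n i) (Eventually.of_forall fun n i => hU1 n i)
    (Eventually.of_forall fun n => hU2 n)
  have hbound : ∀ n : ℕ, (∑ i, Metric.ediam (U n i) ^ c') ≤ 1 := by
    intro n
    have hlog : 0 < Real.log (1 / e n) := Real.log_pos (by
      rw [lt_div_iff₀ (he0 n)]; linarith [he1 n])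
    have h1 : ∀ i ∈ (univ : Finset (Fin (cov X (e n)))),
        Metric.ediam (U n i) ^ c' ≤ ENNReal.ofReal (e n ^ c') := by
      intro i _
      rw [← ENNReal.ofReal_rpow_of_pos (he0 n)]
      exact ENNReal.rpow_le_rpow (hU1 n i) hc'0.le
    refine (Finset.sum_le_sum h1).trans ?_
    rw [Finset.sum_const, card_univ, Fintype.card_fin, nsmul_eq_mul]
    have h2 : (cov X (e n) : ENNReal) = ENNReal.ofReal (cov X (e n) : ℝ) := by
      rw [ENNReal.ofReal_natCast]
    rw [h2, ← ENNReal.ofReal_mul (Nat.cast_nonneg _), ← ENNReal.ofReal_one]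
    apply ENNReal.ofReal_le_ofReal
    have h3 := he3 n
    rw [div_lt_iff₀ hlog] at h3
    have hpos : (0 : ℝ) < cov X (e n) := by exact_mod_cast cov_pos hne hX (he0 n)
    have h4 : (cov X (e n) : ℝ) ≤ (e n) ^ (-c') := by
      rw [← Real.log_le_log_iff hpos (Real.rpow_pos_of_pos (he0 n) _), Real.log_rpow (he0 n)]
      have h5 : Real.log (1 / e n) = - Real.log (e n) := by rw [one_div, Real.log_inv]
      rw [h5] at h3 hlog
      nlinarith
    calc (cov X (e n) : ℝ) * e n ^ c' ≤ (e n) ^ (-c') * e n ^ c' :=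
          mul_le_mul_of_nonneg_right h4 (Real.rpow_nonneg (he0 n).le _)
      _ = 1 := by
          rw [← Real.rpow_add (he0 n), neg_add_cancel, Real.rpow_zero]
  have hle : Measure.hausdorffMeasure c' X ≤ 1 := by
    refine key.trans ?_
    calc liminf (fun n : ℕ => ∑ i, Metric.ediam (U n i) ^ c') atTop
        ≤ liminf (fun _ : ℕ => (1 : ENNReal)) atTop :=
          liminf_le_liminf (Eventually.of_forall hbound)
      _ = 1 := by simp
  have h5 : dimH X ≤ (Real.toNNReal c' : ENNReal) := by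
    apply dimH_le_of_hausdorffMeasure_ne_top
    rw [Real.coe_toNNReal _ hc'0.le]
    exact ne_top_of_le_ne_top ENNReal.one_ne_top hle
  have h6 : ENNReal.ofReal s ≤ ENNReal.ofReal c' := hs.trans h5
  rw [ENNReal.ofReal_le_ofReal_iff hc'0.le] at h6
  linarith

section box

variable {A : Type} [Fintype A]

theorem log_inv_tendsto : Tendsto (fun ε : ℝ => Real.log (1 / ε)) (𝓝[>] 0) atTop := by
  have h1 : Tendsto (fun ε : ℝ => ε⁻¹) (𝓝[>] 0) atTop := tendsto_inv_nhdsGT_zero
  have h2 := Real.tendsto_log_atTop.comp h1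
  refine h2.congr fun ε => ?_
  simp [one_div]

/-- **Box dimension of homogeneous self-similar sets.** -/
theorem box_sets [Nonempty A] {lam : ℝ} (hl0 : lam ≠ 0) (hl1 : |lam| < 1) (t : A → ℝ) {X : Set ℝ}
    (hne : X.Nonempty) (hc : IsCompact X) (hX : X = ⋃ a, (fun x : ℝ => lam * x + t a) '' X) :
    Tendsto (fun ε : ℝ => Real.log (cov X ε) / Real.log (1 / ε)) (𝓝[>] 0)
      (𝓝 (min 1 ((lg_sub lam t).lim / Real.log (1 / |lam|)))) := by
  have hl0' : 0 < |lam| := abs_pos.2 hl0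
  have hchi : 0 < Real.log (1 / |lam|) := Real.log_pos (by
    rw [lt_div_iff₀ hl0']; linarith)
  set chi := Real.log (1 / |lam|) with hchid
  set g := (lg_sub lam t).lim with hg
  have hgr := growth lam t
  rw [← hg] at hgr
  have hdim := dim_sets hl0 hl1 t hne hc hX
  rw [← hchid, ← hg] at hdim
  have hbd := hc.isBounded
  obtain ⟨R, hR⟩ := hbd.subset_closedBall 0
  have hR0 : 0 ≤ R := by
    obtain ⟨x, hx⟩ := hne
    have := hR hx
    rw [Metric.mem_closedBall] at this
    exact dist_nonneg.trans this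
  have hsmall : ∀ᶠ ε in 𝓝[>] (0 : ℝ), 0 < ε ∧ ε < 1 := by
    filter_upwards [Ioo_mem_nhdsGT (show (0 : ℝ) < 1 from one_pos)] with ε hε
    exact ⟨hε.1, hε.2⟩
  have hlogpos : ∀ ε : ℝ, 0 < ε → ε < 1 → 0 < Real.log (1 / ε) := fun ε h1 h2 =>
    Real.log_pos (by rw [lt_div_iff₀ h1]; linarith)
  -- first upper bound
  have hup1 : Tendsto (fun ε : ℝ => (Real.log (2 * R + 1) + Real.log (1 / ε)) / Real.log (1 / ε))
      (𝓝[>] 0) (𝓝 1) := by
    have h1 : Tendsto (fun L : ℝ => (Real.log (2 * R + 1) + L) / L) atTop (𝓝 1) := by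
      have h2 : Tendsto (fun L : ℝ => Real.log (2 * R + 1) / L + 1) atTop (𝓝 (0 + 1)) :=
        (tendsto_const_nhds.div_atTop tendsto_id).add tendsto_const_nhds
      rw [zero_add] at h2
      refine h2.congr' ?_
      filter_upwards [eventually_gt_atTop 0] with L hL
      field_simp
    exact h1.comp log_inv_tendsto
  have hb1 : ∀ᶠ ε in 𝓝[>] (0 : ℝ), Real.log (cov X ε) / Real.log (1 / ε) ≤
      (Real.log (2 * R + 1) + Real.log (1 / ε)) / Real.log (1 / ε) := by
    filter_upwards [hsmall] with ε hε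
    have hL := hlogpos ε hε.1 hε.2
    apply div_le_div_of_nonneg_right _ hL.le
    have h1 : cov X ε ≤ ⌊(2 * R) / ε⌋₊ + 1 := by
      apply cov_interval (a := 0 - R) _ hε.1
      rw [Real.closedBall_eq_Icc] at hR
      intro x hx
      obtain ⟨hx1, hx2⟩ := hR hx
      exact ⟨hx1, by linarith⟩
    have hpos : (0 : ℝ) < cov X ε := by exact_mod_cast cov_pos hne hbd hε.1
    have h2 : (cov X ε : ℝ) ≤ (2 * R + 1) * (1 / ε) := by
      have h3 : ((cov X ε : ℕ) : ℝ) ≤ ((⌊(2 * R) / ε⌋₊ + 1 : ℕ) : ℝ) := by exact_mod_cast h1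
      push_cast at h3
      have h4 : (⌊(2 * R) / ε⌋₊ : ℝ) ≤ (2 * R) / ε := Nat.floor_le (by
        exact div_nonneg (by linarith) hε.1.le)
      have h5 : (1 : ℝ) ≤ 1 / ε := by rw [le_div_iff₀ hε.1]; linarith [hε.2]
      have h6 : (2 * R + 1) * (1 / ε) = (2 * R) / ε + 1 / ε := by ring
      linarith
    rw [← Real.log_mul (by positivity) (by have := hε.1; positivity)]
    exact Real.log_le_log hpos h2
  -- second upper bound
  obtain ⟨c0, hc0⟩ : ∃ c0 : ℕ, |lam| ^ c0 * (2 * R) ≤ 1 := by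
    have h1 : Tendsto (fun n : ℕ => |lam| ^ n * (2 * R)) atTop (𝓝 (0 * (2 * R))) :=
      (tendsto_pow_atTop_nhds_zero_of_lt_one (abs_nonneg _) hl1).mul_const _
    rw [zero_mul] at h1
    obtain ⟨n, hn⟩ := (h1.eventually (gt_mem_nhds one_pos)).exists
    exact ⟨n, hn.le⟩
  set k : ℝ → ℕ := fun L => ⌈chi⁻¹ * L⌉₊ + c0 with hk
  have hk_lim : Tendsto k atTop atTop := by
    apply tendsto_atTop_mono (fun L => Nat.le_add_right ⌈chi⁻¹ * L⌉₊ c0)
    exact tendsto_nat_ceil_atTop.comp (tendsto_id.const_mul_atTop (by positivity))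
  have hk_ratio : Tendsto (fun L : ℝ => (k L : ℝ) / L) atTop (𝓝 chi⁻¹) := by
    have h1 := tendsto_nat_ceil_mul_div_atTop (R := ℝ) (a := chi⁻¹) (by positivity)
    have h2 : Tendsto (fun L : ℝ => (⌈chi⁻¹ * L⌉₊ : ℝ) / L + (c0 : ℝ) / L) atTop
        (𝓝 (chi⁻¹ + 0)) := h1.add (tendsto_const_nhds.div_atTop tendsto_id)
    rw [add_zero] at h2
    refine h2.congr fun L => ?_
    rw [hk]
    push_cast
    rw [add_div]
  have hup2 : Tendsto (fun ε : ℝ => lg lam t (k (Real.log (1 / ε))) / Real.log (1 / ε))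
      (𝓝[>] 0) (𝓝 (g / chi)) := by
    have h1 : Tendsto (fun L : ℝ => (lg lam t (k L) / (k L : ℝ)) * ((k L : ℝ) / L)) atTop
        (𝓝 (g * chi⁻¹)) := (hgr.comp hk_lim).mul hk_ratio
    have h2 : Tendsto (fun L : ℝ => lg lam t (k L) / L) atTop (𝓝 (g / chi)) := by
      rw [div_eq_mul_inv g chi]
      refine h1.congr' ?_
      filter_upwards [hk_lim.eventually_gt_atTop 0] with L hL
      have hL' : (k L : ℝ) ≠ 0 := by exact_mod_cast hL.ne'
      rw [div_mul_div_cancel₀ hL']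
    exact h2.comp log_inv_tendsto
  have hb2 : ∀ᶠ ε in 𝓝[>] (0 : ℝ), Real.log (cov X ε) / Real.log (1 / ε) ≤
      lg lam t (k (Real.log (1 / ε))) / Real.log (1 / ε) := by
    filter_upwards [hsmall] with ε hε
    have hL := hlogpos ε hε.1 hε.2
    apply div_le_div_of_nonneg_right _ hL.le
    set n := k (Real.log (1 / ε)) with hn
    unfold lg
    have hpos : (0 : ℝ) < cov X ε := by exact_mod_cast cov_pos hne hbd hε.1
    apply Real.log_le_log hpos
    have h1 : cov X ε ≤ Fintype.card (vals lam t n) := by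
      apply cov_le (fun y : vals lam t n => (fun x : ℝ => lam ^ n * x + y) '' X)
      · intro y
        refine (G_upper_diam _ _ X).trans ?_
        have hd : Metric.ediam X ≤ ENNReal.ofReal (2 * R) := by
          refine (Metric.ediam_mono hR).trans ?_
          rw [Real.closedBall_eq_Icc, Real.ediam_Icc]
          apply ENNReal.ofReal_le_ofReal
          linarith
        have h2 : |lam| ^ n * (2 * R) ≤ ε := by
          rw [hn, hk]
          simp only
          rw [pow_add, mul_assoc]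
          have h3 : |lam| ^ ⌈chi⁻¹ * Real.log (1 / ε)⌉₊ ≤ ε := by
            rw [← Real.log_le_log_iff (by positivity) hε.1, Real.log_pow]
            have h4 := Nat.le_ceil (chi⁻¹ * Real.log (1 / ε))
            have h5 : Real.log |lam| = - chi := by rw [hchid, one_div, Real.log_inv, neg_neg]
            have h6 : Real.log (1 / ε) = - Real.log ε := by rw [one_div, Real.log_inv]
            rw [h5]
            have h7 : chi⁻¹ * Real.log (1 / ε) * chi ≤ ⌈chi⁻¹ * Real.log (1 / ε)⌉₊ * chi :=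
              mul_le_mul_of_nonneg_right h4 hchi.le
            have h8 : chi⁻¹ * Real.log (1 / ε) * chi = Real.log (1 / ε) := by
              field_simp
            rw [h8] at h7
            linarith
          calc |lam| ^ ⌈chi⁻¹ * Real.log (1 / ε)⌉₊ * (|lam| ^ c0 * (2 * R))
              ≤ ε * 1 := mul_le_mul h3 hc0 (by positivity) hε.1.le
            _ = ε := mul_one _
        rw [abs_pow]
        calc ENNReal.ofReal (|lam| ^ n) * Metric.ediam X
            ≤ ENNReal.ofReal (|lam| ^ n) * ENNReal.ofReal (2 * R) := by gcongr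
          _ = ENNReal.ofReal (|lam| ^ n * (2 * R)) :=
              (ENNReal.ofReal_mul (by positivity)).symm
          _ ≤ ENNReal.ofReal ε := ENNReal.ofReal_le_ofReal h2
      · conv_lhs => rw [level lam t hX n]
    rw [Fintype.card_coe] at h1
    exact_mod_cast h1
  -- conclusion
  rw [tendsto_order]
  constructor
  · intro c hcs
    obtain ⟨c', hc1, hc2⟩ := exists_between hcs
    filter_upwards [box_lower hne hbd (s := min 1 (g / chi)) hdim.symm.le hc2] with ε hε
    exact lt_of_lt_of_le hc1 hε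
  · intro c hcs
    rcases min_lt_iff.1 hcs with h | h
    · filter_upwards [hb1, hup1.eventually (gt_mem_nhds h)] with ε h1 h2
      exact lt_of_le_of_lt h1 h2
    · filter_upwards [hb2, hup2.eventually (gt_mem_nhds h)] with ε h1 h2
      exact lt_of_le_of_lt h1 h2

end box

end Pool.Agent.Y293.OV
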