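import Pool.Agent.Y293.EM.Low

/-!
# Lower bound of the local dimension from entropies
-/

set_option autoImplicit false

open Finset Filter MeasureTheory

namespace Pool.Agent.Y293.OV

open H517.EO Pool.Agent.Y293.EM

section low

variable {A : Type} [Fintype A] [DecidableEq A]

/-- lower bound of the local dimension from a lower bound of the entropies -/
theorem local_lower_of {lam : ℝ} {t p : A → ℝ} {μ : Measure ℝ} [IsProbabilityMeasure μ]
    (hl0 : 0 < lam) (hl1 : lam < 1) (hp : ∀ a, 0 ≤ p a)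
    (hp1 : ∑ a, p a = 1) (h : SR lam t p μ) {Δ : ℝ}
    (hE : ∀ M : ℝ, (∀ a, |t a| ≤ M * (1 - lam)) → ∀ ε : ℝ, 0 < ε → ∀ N0 : ℕ, ∃ N : ℕ, N0 ≤ N ∧
      ∀ (η s : ℝ) (K : Finset ℤ), 0 < η → η ≤ lam ^ N →
        (∀ x ∈ Set.Icc (-M) M, ⌊x / η + s⌋ ∈ K) →
        (N : ℝ) * (Δ - ε) ≤ ∑ b ∈ K, Real.negMulLog (μ.real {x : ℝ | ⌊x / η + s⌋ = b}))
    {D : ℝ} (hD : D * Real.log (1 / lam) < Δ) :
    ∀ᵐ x ∂μ, ∀ᶠ r in nhdsWithin (0 : ℝ) (Set.Ioi 0), μ.real (Metric.closedBall x r) ≤ r ^ D := by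
  classical
  set χ : ℝ := Real.log (1 / lam) with hχ
  have hχ0 : 0 < χ := Real.log_pos (by rw [lt_div_iff₀ hl0]; linarith)
  rcases lt_or_ge D 0 with hneg | hD0
  · refine ae_of_all _ fun x => ?_
    have h3 : ∀ᶠ r : ℝ in nhdsWithin 0 (Set.Ioi 0), r < 1 :=
      (gt_mem_nhds one_pos).filter_mono nhdsWithin_le_nhds
    filter_upwards [h3, self_mem_nhdsWithin] with r h3 h4
    refine le_trans measureReal_le_one ?_
    exact Real.one_le_rpow_of_pos_of_le_one_of_nonpos h4 h3.le hneg.le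
  -- the support
  set M : ℝ := 1 + (∑ a, |t a|) / (1 - lam) with hMdef
  have h1l : 0 < 1 - lam := by linarith
  have hsum0 : 0 ≤ ∑ a, |t a| := Finset.sum_nonneg fun a _ => abs_nonneg _
  have hM1 : 1 ≤ M := by
    rw [hMdef]
    have : 0 ≤ (∑ a, |t a|) / (1 - lam) := div_nonneg hsum0 h1l.le
    linarith
  have hM : ∀ a, |t a| ≤ M * (1 - lam) := by
    intro a
    have h1 : |t a| ≤ ∑ a, |t a| := Finset.single_le_sum (fun a _ => abs_nonneg (t a))
      (Finset.mem_univ a)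
    rw [hMdef, add_mul, div_mul_cancel₀ _ h1l.ne']
    linarith
  -- the parameters
  set g : ℝ := Δ - D * χ with hg
  have hg0 : 0 < g := by linarith
  have hDχ : 0 ≤ D * χ := mul_nonneg hD0 hχ0.le
  have hΔ0 : 0 < Δ := by linarith
  obtain ⟨S, hS⟩ := exists_nat_ge (max 1 (8 * Δ / g))
  have hS1 : 1 ≤ S := by
    have := (le_max_left (1 : ℝ) (8 * Δ / g)).trans hS
    exact_mod_cast this
  have hS0 : (0 : ℝ) < S := by exact_mod_cast hS1
  have hSg : 2 / (S : ℝ) * Δ ≤ g / 4 := by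
    have h1 := (le_max_right (1 : ℝ) (8 * Δ / g)).trans hS
    rw [div_le_iff₀ hg0] at h1
    rw [div_mul_eq_mul_div, div_le_iff₀ hS0]
    linarith
  set cS : ℝ := Real.log (S * (2 * M + 1)) with hcS
  have hcS0 : 0 ≤ cS := by
    apply Real.log_nonneg
    have : (1 : ℝ) ≤ S := by exact_mod_cast hS1
    nlinarith
  obtain ⟨N0, hN0⟩ := exists_nat_ge ((D * (χ + cS) + 2) / (g / 2))
  obtain ⟨N, hNN, hK⟩ := hE M hM (g / 4) (by linarith) N0
  set K : ℝ := N * (Δ - g / 4) with hKdef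
  have hΔg : 0 ≤ Δ - g / 4 := by
    rw [hg]; linarith
  have hK0 : 0 ≤ K := mul_nonneg (Nat.cast_nonneg _) hΔg
  have hlN : 0 < lam ^ (N + 1) := pow_pos hl0 _
  set q' : ℕ := ⌈2 * M / lam ^ (N + 1)⌉₊ with hq'def
  have hq'le : 2 * M ≤ q' * lam ^ (N + 1) := by
    have := Nat.le_ceil (2 * M / lam ^ (N + 1))
    rw [div_le_iff₀ hlN] at this
    exact this
  have hq'1 : 1 ≤ q' := by
    rw [Nat.one_le_iff_ne_zero]
    intro h0
    rw [h0] at hq'le
    simp at hq'le
    linarith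
  set q : ℕ := S * q' with hqdef
  have hlog : Real.log q ≤ (N + 1) * χ + cS := by
    have h1 : (q' : ℝ) ≤ (2 * M + 1) / lam ^ (N + 1) := by
      have h2 := Nat.ceil_lt_add_one (show 0 ≤ 2 * M / lam ^ (N + 1) by positivity)
      have h3 : (1 : ℝ) ≤ 1 / lam ^ (N + 1) := by
        rw [le_div_iff₀ hlN, one_mul]
        exact pow_le_one₀ hl0.le hl1.le
      rw [add_div]
      linarith
    have h2 : (q : ℝ) ≤ S * (2 * M + 1) * (1 / lam) ^ (N + 1) := by
      rw [hqdef]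
      push_cast
      have h3 := mul_le_mul_of_nonneg_left h1 hS0.le
      have h4 : (S : ℝ) * ((2 * M + 1) / lam ^ (N + 1)) = S * (2 * M + 1) * (1 / lam) ^ (N + 1) := by
        rw [div_pow, one_pow]; ring
      linarith
    have hq0 : (0 : ℝ) < q := by
      rw [hqdef]
      push_cast
      have : (0 : ℝ) < q' := by exact_mod_cast hq'1
      positivity
    have h5 := Real.log_le_log hq0 h2
    rw [Real.log_mul (by positivity) (by positivity), Real.log_pow] at h5
    push_cast at h5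
    rw [hcS, hχ]
    linarith
  have hmain : D * Real.log q + 1 < K * (1 - 2 / S) := by
    have h1 : D * Real.log q ≤ D * ((N + 1) * χ + cS) := mul_le_mul_of_nonneg_left hlog hD0
    have h2 : (D * (χ + cS) + 2) ≤ N * (g / 2) := by
      have h3 : (D * (χ + cS) + 2) / (g / 2) ≤ N := hN0.trans (by exact_mod_cast hNN)
      rwa [div_le_iff₀ (by linarith)] at h3
    have h3 : (Δ - g / 4) * (1 - 2 / S) ≥ Δ - g / 2 := by
      have h4 : 0 ≤ g / 4 * (2 / S) := by positivity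
      nlinarith [hSg]
    have h4 : (N : ℝ) * (Δ - g / 2) ≤ K * (1 - 2 / S) := by
      rw [hKdef, mul_assoc]
      exact mul_le_mul_of_nonneg_left h3 (Nat.cast_nonneg _)
    have h5 : (N : ℝ) * (Δ - g / 2) = N * (D * χ) + N * (g / 2) := by rw [hg]; ring
    have h6 : D * (((N : ℝ) + 1) * χ + cS) = N * (D * χ) + D * (χ + cS) := by ring
    linarith
  have hdecay := cell_decay hl0 hl1 hp hp1 h hM hM1 hq'1 hS1 hqdef hq'le hK0 hK
    (D * Real.log q + 1) hmain
  have hq1 : (1 : ℝ) < q := by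
    have h1 : (1 : ℝ) ≤ S := by exact_mod_cast hS1
    have h2 : (2 : ℝ) ≤ q' := by
      have h3 : (2 : ℝ) ≤ q' * lam ^ (N + 1) := by linarith
      have h4 : lam ^ (N + 1) ≤ 1 := pow_le_one₀ hl0.le hl1.le
      have h5 : (0 : ℝ) ≤ q' := Nat.cast_nonneg _
      nlinarith
    rw [hqdef]
    push_cast
    nlinarith
  filter_upwards [hdecay] with x hx
  refine fill_lower (g := fun r => μ.real (Metric.closedBall x r)) ?_ hq1 hD0
    (by linarith : D * Real.log q < D * Real.log q + 1) hx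
  intro r s hrs
  exact measureReal_mono (Metric.closedBall_subset_closedBall hrs) (measure_ne_top _ _)

end low

end Pool.Agent.Y293.OV
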