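import Pool.Agent.Y293.OV.Law
import Pool.Agent.Y293.OV.Loc
import Pool.Agent.Y293.EM.Fin

/-!
# Exact dimension of homogeneous self-similar measures with arbitrary overlaps
-/

set_option autoImplicit false

open Finset Filter MeasureTheory

namespace Pool.Agent.Y293.OV

open H517.EO Pool.Agent.Y293.EM

section dim

/-- from local bounds to the exact dimension -/
theorem exact_of {μ : Measure ℝ} [IsProbabilityMeasure μ] {D0 : ℝ}
    (hlow : ∀ D : ℝ, D < D0 → ∀ᵐ x ∂μ, ∀ᶠ r in nhdsWithin (0 : ℝ) (Set.Ioi 0),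
      μ.real (Metric.closedBall x r) ≤ r ^ D)
    (hup : ∀ D : ℝ, D0 < D → ∀ᵐ x ∂μ, ∀ᶠ r in nhdsWithin (0 : ℝ) (Set.Ioi 0),
      r ^ D ≤ μ.real (Metric.closedBall x r)) :
    (∀ᵐ x ∂μ, Tendsto (fun r : ℝ => Real.log (μ.real (Metric.closedBall x r)) / Real.log r)
      (nhdsWithin 0 (Set.Ioi 0)) (nhds D0)) ∧
    ∀ E : Set ℝ, μ E ≠ 0 → ENNReal.ofReal D0 ≤ dimH E := by
  constructor
  · have e1 : ∀ᵐ x ∂μ, ∀ n : ℕ, ∀ᶠ r in nhdsWithin (0 : ℝ) (Set.Ioi 0),
        μ.real (Metric.closedBall x r) ≤ r ^ (D0 - 1 / ((n : ℝ) + 1)) := by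
      rw [ae_all_iff]
      intro n
      apply hlow
      have : 0 < 1 / ((n : ℝ) + 1) := by positivity
      linarith
    have e2 : ∀ᵐ x ∂μ, ∀ n : ℕ, ∀ᶠ r in nhdsWithin (0 : ℝ) (Set.Ioi 0),
        r ^ (D0 + 1 / ((n : ℝ) + 1)) ≤ μ.real (Metric.closedBall x r) := by
      rw [ae_all_iff]
      intro n
      apply hup
      have : 0 < 1 / ((n : ℝ) + 1) := by positivity
      linarith
    have e3 : ∀ᶠ r : ℝ in nhdsWithin 0 (Set.Ioi 0), r < 1 :=
      (gt_mem_nhds one_pos).filter_mono nhdsWithin_le_nhds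
    filter_upwards [e1, e2] with x hx1 hx2
    rw [tendsto_order]
    constructor
    · intro a ha
      obtain ⟨n, hn⟩ := exists_nat_one_div_lt (sub_pos.2 ha)
      filter_upwards [hx1 n, hx2 0, e3, self_mem_nhdsWithin] with r q1 q2 q3 q4
      have hr : 0 < r := q4
      have hlr : Real.log r < 0 := Real.log_neg hr q3
      have hpos : 0 < μ.real (Metric.closedBall x r) := lt_of_lt_of_le (Real.rpow_pos_of_pos hr _) q2
      have h5 := Real.log_le_log hpos q1
      rw [Real.log_rpow hr] at h5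
      rw [lt_div_iff_of_neg hlr]
      have h6 : a < D0 - 1 / ((n : ℝ) + 1) := by linarith
      have h7 := mul_lt_mul_of_neg_right h6 hlr
      linarith
    · intro a ha
      obtain ⟨n, hn⟩ := exists_nat_one_div_lt (sub_pos.2 ha)
      filter_upwards [hx2 n, e3, self_mem_nhdsWithin] with r q2 q3 q4
      have hr : 0 < r := q4
      have hlr : Real.log r < 0 := Real.log_neg hr q3
      have h5 := Real.log_le_log (Real.rpow_pos_of_pos hr _) q2
      rw [Real.log_rpow hr] at h5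
      rw [div_lt_iff_of_neg hlr]
      have h6 : D0 + 1 / ((n : ℝ) + 1) < a := by linarith
      have h7 := mul_lt_mul_of_neg_right h6 hlr
      linarith
  · intro E hE
    rcases le_or_gt D0 0 with hneg | hpos
    · rw [ENNReal.ofReal_of_nonpos hneg]
      exact zero_le
    · have h3 : ∀ D : ℝ, 0 < D → D < D0 → ENNReal.ofReal D ≤ dimH E := fun D hD1 hD2 =>
        mass_dist hD1 hE (hlow D hD2)
      have hlim : Tendsto (fun D : ℝ => ENNReal.ofReal D) (nhdsWithin D0 (Set.Iio D0))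
          (nhds (ENNReal.ofReal D0)) :=
        (ENNReal.continuous_ofReal.tendsto D0).mono_left nhdsWithin_le_nhds
      refine le_of_tendsto hlim ?_
      have h4 : ∀ᶠ D : ℝ in nhdsWithin D0 (Set.Iio D0), 0 < D :=
        (lt_mem_nhds hpos).filter_mono nhdsWithin_le_nhds
      filter_upwards [h4, self_mem_nhdsWithin] with D hD1 hD2
      exact h3 D hD1 hD2


variable {A : Type} [Fintype A]

/-- lower bound at level `n` with padding -/
theorem low_meas {lam : ℝ} {t p : A → ℝ} {μ : Measure ℝ} [IsProbabilityMeasure μ]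
    (hl0 : lam ≠ 0) (hl1 : |lam| < 1) (hp : ∀ a, 0 < p a) (hp1 : ∑ a, p a = 1)
    (h : SR lam t p μ) {ε : ℝ} (hε : 0 < ε) :
    ∃ n0 : ℕ, ∀ n : ℕ, n0 ≤ n → 0 < n → ∀ D : ℕ, ε * n ≤ D → Even (n + D) → ∀ s : ℝ,
      s * (((n + D : ℕ) : ℝ) * Real.log (1 / |lam|)) <
        min (Hn lam t p n) (((n + D : ℕ) : ℝ) * Real.log (1 / |lam|)) →
      ∀ᵐ x ∂μ, ∀ᶠ r in nhdsWithin (0 : ℝ) (Set.Ioi 0), μ.real (Metric.closedBall x r) ≤ r ^ s := by
  classical
  obtain ⟨n0, hn0⟩ := free_pad hl0 hl1 t hε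
  refine ⟨n0, fun n hn hnpos D hD hev s hs => ?_⟩
  have hpos : 0 < lam ^ (n + D) := hev.pow_pos hl0
  have hlt : lam ^ (n + D) < 1 := by
    rw [← hev.pow_abs]
    exact pow_lt_one₀ (abs_nonneg _) hl1 (by omega)
  have hch : ∀ y : vals lam t n, ∃ w : Fin n → A, XX lam t w = y := fun y => mem_vals.1 y.2
  choose u hu using hch
  have hfree := hn0 n hn D hD (vals lam t n) (fun y => (y : ℝ)) u 0
    (fun y => by rw [hu, add_zero]) (fun y z h => Subtype.ext h)
  have hlog : Real.log (1 / lam ^ (n + D)) = ((n + D : ℕ) : ℝ) * Real.log (1 / |lam|) := by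
    rw [← hev.pow_abs, one_div, one_div, ← inv_pow, Real.log_pow]
  have hSR := SR_pad h n D
  have hq0 : ∀ v : Fin D → A, 0 ≤ pw p v := fun v => (pw_pos hp v).le
  have hq1 : ∑ v : Fin D → A, pw p v = 1 := sum_pw hp1 D
  have hPQ1 : ∑ x : vals lam t n × (Fin D → A), pv lam t p n x.1 * pw p x.2 = 1 := by
    rw [Fintype.sum_prod_type]
    simp only
    rw [← Finset.sum_mul_sum, sum_pv hp1, hq1, one_mul]
  have hE : ∀ M : ℝ, (∀ x : vals lam t n × (Fin D → A), |(x.1 : ℝ) + lam ^ n * XX lam t x.2| ≤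
      M * (1 - lam ^ (n + D))) → ∀ ε : ℝ, 0 < ε → ∀ N0 : ℕ, ∃ N : ℕ, N0 ≤ N ∧
      ∀ (η s : ℝ) (K : Finset ℤ), 0 < η → η ≤ (lam ^ (n + D)) ^ N →
        (∀ x ∈ Set.Icc (-M) M, ⌊x / η + s⌋ ∈ K) →
        (N : ℝ) * (min (∑ y, Real.negMulLog (pv lam t p n y))
          (Real.log (1 / lam ^ (n + D))) - ε) ≤
          ∑ b ∈ K, Real.negMulLog (μ.real {x : ℝ | ⌊x / η + s⌋ = b}) := by
    intro M hM ε' hε' N0
    exact ent_mu_rel (A := vals lam t n) (V := Fin D → A) (lam := lam ^ (n + D)) (M := M)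
      (t := fun y => (y : ℝ)) (p := pv lam t p n) (s' := fun v => lam ^ n * XX lam t v)
      (q := pw p) (μ := μ) hpos hlt hfree (fun y => pv_pos hp y) (sum_pv hp1 n) hq0 hq1 hSR hM
      ε' hε' N0
  refine local_lower_of (A := vals lam t n × (Fin D → A)) (lam := lam ^ (n + D))
    (t := fun x => (x.1 : ℝ) + lam ^ n * XX lam t x.2) (p := fun x => pv lam t p n x.1 * pw p x.2)
    (μ := μ) hpos hlt (fun x => mul_nonneg (pv_pos hp x.1).le (hq0 x.2)) hPQ1 hSR hE ?_
  rw [ent_pv, hlog]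
  exact hs

/-- upper bound at level `n` -/
theorem up_meas {lam : ℝ} {t p : A → ℝ} {μ : Measure ℝ} [IsProbabilityMeasure μ]
    (hl0 : lam ≠ 0) (hl1 : |lam| < 1) (hp : ∀ a, 0 < p a) (hp1 : ∑ a, p a = 1)
    (h : SR lam t p μ) {n : ℕ} (hn : 0 < n) (hev : Even n) {s : ℝ}
    (hs : min (Hn lam t p n) ((n : ℝ) * Real.log (1 / |lam|)) <
      s * ((n : ℝ) * Real.log (1 / |lam|))) :
    ∀ᵐ x ∂μ, ∀ᶠ r in nhdsWithin (0 : ℝ) (Set.Ioi 0), r ^ s ≤ μ.real (Metric.closedBall x r) := by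
  classical
  have hpos : 0 < lam ^ n := hev.pow_pos hl0
  have hlt : lam ^ n < 1 := by
    rw [← hev.pow_abs]
    exact pow_lt_one₀ (abs_nonneg _) hl1 (by omega)
  have hlog : Real.log (1 / lam ^ n) = (n : ℝ) * Real.log (1 / |lam|) := by
    rw [← hev.pow_abs, one_div, one_div, ← inv_pow, Real.log_pow]
  refine local_upper hpos hlt (fun y => pv_pos hp y) (sum_pv hp1 n) (SR_group h n) ?_
  rw [ent_pv, hlog]
  exact hs

/-- **Exact dimension of homogeneous self-similar measures.** -/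
theorem dim_meas {lam : ℝ} {t p : A → ℝ} {μ : Measure ℝ} [IsProbabilityMeasure μ]
    (hl0 : lam ≠ 0) (hl1 : |lam| < 1) (hp : ∀ a, 0 < p a) (hp1 : ∑ a, p a = 1)
    (h : SR lam t p μ) :
    (∀ᵐ x ∂μ, Tendsto (fun r : ℝ => Real.log (μ.real (Metric.closedBall x r)) / Real.log r)
      (nhdsWithin 0 (Set.Ioi 0))
      (nhds (min 1 ((Hn_sub (lam := lam) (t := t) hp hp1).lim / Real.log (1 / |lam|))))) ∧
    ∀ E : Set ℝ, μ E ≠ 0 →
      ENNReal.ofReal (min 1 ((Hn_sub (lam := lam) (t := t) hp hp1).lim /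
        Real.log (1 / |lam|))) ≤ dimH E := by
  set g : ℝ := (Hn_sub (lam := lam) (t := t) hp hp1).lim with hg
  set chi : ℝ := Real.log (1 / |lam|) with hchid
  have hchi : 0 < chi := Real.log_pos (by
    rw [lt_div_iff₀ (abs_pos.2 hl0)]; linarith)
  have hbdd : BddBelow (Set.range fun n : ℕ => Hn lam t p n / n) := by
    refine ⟨0, ?_⟩
    rintro _ ⟨n, rfl⟩
    exact div_nonneg (Hn_nonneg hp hp1 n) (Nat.cast_nonneg _)
  apply exact_of
  · intro s hs
    have hs1 : s < 1 := lt_of_lt_of_le hs (min_le_left _ _)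
    have hs2 : s < g / chi := lt_of_lt_of_le hs (min_le_right _ _)
    rw [lt_div_iff₀ hchi] at hs2
    set g0 : ℝ := g - s * chi with hg0d
    have hg0 : 0 < g0 := by linarith
    have hsc : 0 ≤ |s| * chi := by positivity
    set ε : ℝ := g0 / (3 * (|s| * chi + 1)) with hεd
    have hε : 0 < ε := by positivity
    have hε2 : |s| * chi * ε ≤ g0 / 3 := by
      rw [hεd, mul_div_assoc']
      rw [div_le_div_iff₀ (by positivity) (by norm_num)]
      nlinarith
    obtain ⟨n0, hn0⟩ := low_meas hl0 hl1 hp hp1 h hε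
    obtain ⟨n1, hn1⟩ := exists_nat_ge (6 * (|s| * chi + 1) / g0)
    set n : ℕ := max (max n0 n1) 1 with hnd
    have hnn0 : n0 ≤ n := (le_max_left _ _).trans (le_max_left _ _)
    have hnn1 : n1 ≤ n := (le_max_right _ _).trans (le_max_left _ _)
    have hnpos : 0 < n := lt_of_lt_of_le one_pos (le_max_right _ _)
    have hn' : (0 : ℝ) < n := by exact_mod_cast hnpos
    have hn2 : 2 * (|s| * chi) ≤ g0 / 3 * n := by
      have h1 : 6 * (|s| * chi + 1) / g0 ≤ n := hn1.trans (by exact_mod_cast hnn1)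
      rw [div_le_iff₀ hg0] at h1
      linarith
    obtain ⟨D, hD1, hD2, hD3⟩ : ∃ D : ℕ, ε * n ≤ D ∧ Even (n + D) ∧ (D : ℝ) ≤ ε * n + 2 := by
      have h1 := Nat.le_ceil (ε * n)
      have h2 := Nat.ceil_lt_add_one (show 0 ≤ ε * n by positivity)
      rcases Nat.even_or_odd (n + ⌈ε * n⌉₊) with h | h
      · exact ⟨⌈ε * n⌉₊, h1, h, by linarith⟩
      · refine ⟨⌈ε * n⌉₊ + 1, ?_, ?_, ?_⟩
        · push_cast; linarith
        · rw [← add_assoc]
          exact h.add_one
        · push_cast; linarith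
    apply hn0 n hnn0 hnpos D hD1 hD2 s
    apply lt_min
    · have hlim : g ≤ Hn lam t p n / n :=
        (Hn_sub (lam := lam) (t := t) hp hp1).lim_le_div hbdd hnpos.ne'
      rw [le_div_iff₀ hn'] at hlim
      have h1 : s * (((n + D : ℕ) : ℝ) * chi) ≤ s * chi * n + |s| * chi * (ε * n + 2) := by
        push_cast
        have h2 : s * (D * chi) ≤ |s| * chi * (ε * n + 2) := by
          have h3 : s * ((D : ℝ) * chi) ≤ |s| * ((D : ℝ) * chi) :=
            mul_le_mul_of_nonneg_right (le_abs_self s) (by positivity)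
          have h4 : |s| * ((D : ℝ) * chi) = |s| * chi * D := by ring
          rw [h4] at h3
          exact h3.trans (mul_le_mul_of_nonneg_left hD3 hsc)
        linarith
      have h5 : |s| * chi * (ε * n + 2) ≤ g0 / 3 * n + g0 / 3 * n := by
        have h6 : |s| * chi * (ε * n) ≤ g0 / 3 * n := by
          have := mul_le_mul_of_nonneg_right hε2 hn'.le
          linarith
        linarith
      have h7 : 0 < g0 * n := by positivity
      have h8 : s * chi * n = g * n - g0 * n := by rw [hg0d]; ring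
      linarith
    · have h1 : 0 < ((n + D : ℕ) : ℝ) * chi := by
        push_cast
        positivity
      nlinarith
  · intro s hs
    rcases min_lt_iff.1 hs with h1 | h1
    · refine up_meas hl0 hl1 hp hp1 h (n := 2) (by norm_num) (by decide) ?_
      refine lt_of_le_of_lt (min_le_right _ _) ?_
      have : 0 < ((2 : ℕ) : ℝ) * Real.log (1 / |lam|) := by
        rw [← hchid]
        positivity
      nlinarith
    · rw [div_lt_iff₀ hchi] at h1
      have h2 := (Hn_lim (lam := lam) (t := t) hp hp1).eventually (gt_mem_nhds h1)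
      obtain ⟨m, hm⟩ := eventually_atTop.1 h2
      have h3 := hm (2 * (m + 1)) (by omega)
      have hpos : (0 : ℝ) < ((2 * (m + 1) : ℕ) : ℝ) := by positivity
      rw [div_lt_iff₀ hpos] at h3
      refine up_meas hl0 hl1 hp hp1 h (n := 2 * (m + 1)) (by omega) (even_two_mul _) ?_
      refine lt_of_le_of_lt (min_le_left _ _) ?_
      calc Hn lam t p (2 * (m + 1)) < s * chi * ((2 * (m + 1) : ℕ) : ℝ) := h3
        _ = s * (((2 * (m + 1) : ℕ) : ℝ) * chi) := by ring

end dim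

end Pool.Agent.Y293.OV
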