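import Pool.Agent.Y293.OV.Gap
import Pool.Agent.H517R2.EO.T_A5

/-!
# Freeness of padded words
-/

set_option autoImplicit false

open Finset Polynomial Filter

namespace Pool.Agent.Y293.OV

open H517.EO

theorem coeff_mul_le (c F : ℤ[X]) {M : ℝ} (hM : 0 ≤ M)
    (hF : ∀ i, |((F.coeff i : ℤ) : ℝ)| ≤ M) (i : ℕ) :
    |(((c * F).coeff i : ℤ) : ℝ)| ≤ L1 c * M := by
  rw [coeff_mul]
  push_cast
  refine (Finset.abs_sum_le_sum_abs _ _).trans ?_
  have e1 : ∀ x ∈ antidiagonal i, |((c.coeff x.1 : ℤ) : ℝ) * ((F.coeff x.2 : ℤ) : ℝ)| ≤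
      |((c.coeff x.1 : ℤ) : ℝ)| * M := by
    intro x _
    rw [abs_mul]
    exact mul_le_mul_of_nonneg_left (hF _) (abs_nonneg _)
  refine (Finset.sum_le_sum e1).trans ?_
  rw [← Finset.sum_mul]
  apply mul_le_mul_of_nonneg_right _ hM
  rw [Finset.Nat.sum_antidiagonal_eq_sum_range_succ_mk]
  simp only
  unfold L1
  have e2 : ∑ j ∈ range i.succ, |((c.coeff j : ℤ) : ℝ)| ≤
      ∑ j ∈ range (max i.succ (c.natDegree + 1)), |((c.coeff j : ℤ) : ℝ)| :=
    Finset.sum_le_sum_of_subset_of_nonneg
      (Finset.range_subset_range.2 (le_max_left _ _)) (fun _ _ _ => abs_nonneg _)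
  refine e2.trans (le_of_eq ?_)
  symm
  apply Finset.sum_subset (Finset.range_subset_range.2 (le_max_right _ _))
  intro j _ hj
  rw [mem_range, not_lt] at hj
  rw [coeff_eq_zero_of_natDegree_lt (by omega)]
  simp

section basis

variable {A : Type} [Fintype A] [DecidableEq A]

/-- independence over the integer polynomials in `lam` -/
def Indep (lam : ℝ) (t : A → ℝ) (S : Finset A) : Prop :=
  ∀ P : A → ℤ[X], (∑ a ∈ S, t a * aeval lam (P a)) = 0 → ∀ a ∈ S, aeval lam (P a) = 0

theorem exists_basis (lam : ℝ) (t : A → ℝ) : ∃ (S : Finset A) (e : ℤ[X]) (c : A → A → ℤ[X]),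
    Indep lam t S ∧ aeval lam e ≠ 0 ∧
      ∀ b, aeval lam e * t b = ∑ a ∈ S, t a * aeval lam (c a b) := by
  classical
  have hne : (Finset.univ.filter (fun S : Finset A => Indep lam t S)).Nonempty := by
    refine ⟨∅, ?_⟩
    rw [mem_filter]
    refine ⟨mem_univ _, ?_⟩
    intro P _ a ha
    exact absurd ha (Finset.notMem_empty a)
  obtain ⟨S, hS, hmax⟩ := Finset.exists_max_image _ Finset.card hne
  have hSI : Indep lam t S := (mem_filter.1 hS).2
  have key : ∀ b : A, ∃ (e : ℤ[X]) (c : A → ℤ[X]), aeval lam e ≠ 0 ∧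
      aeval lam e * t b = ∑ a ∈ S, t a * aeval lam (c a) := by
    intro b
    by_cases hb : b ∈ S
    · refine ⟨1, fun a => if a = b then 1 else 0, by simp, ?_⟩
      rw [Finset.sum_eq_single b]
      · simp
      · intro a _ hab
        simp [hab]
      · intro h
        exact absurd hb h
    · have hnot : ¬ Indep lam t (insert b S) := by
        intro h
        have := hmax (insert b S) (mem_filter.2 ⟨mem_univ _, h⟩)
        rw [Finset.card_insert_of_notMem hb] at this
        omega
      unfold Indep at hnot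
      push Not at hnot
      obtain ⟨P, hP0, a0, ha0, hPa⟩ := hnot
      rw [Finset.sum_insert hb] at hP0
      have hPb : aeval lam (P b) ≠ 0 := by
        intro h
        rw [h, mul_zero, zero_add] at hP0
        have h2 := hSI P hP0
        rcases Finset.mem_insert.1 ha0 with h3 | h3
        · rw [h3] at hPa
          exact hPa h
        · exact hPa (h2 a0 h3)
      refine ⟨P b, fun a => - P a, hPb, ?_⟩
      have h3 : ∑ a ∈ S, t a * aeval lam (- P a) = - ∑ a ∈ S, t a * aeval lam (P a) := by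
        rw [← Finset.sum_neg_distrib]
        refine Finset.sum_congr rfl fun a _ => ?_
        rw [map_neg]
        ring
      rw [h3]
      linarith
  choose e c he hc using key
  refine ⟨S, ∏ b, e b, fun a b => c b a * ∏ b' ∈ univ.erase b, e b', hSI, ?_, ?_⟩
  · rw [map_prod]
    exact Finset.prod_ne_zero_iff.2 fun b _ => he b
  · intro b
    rw [← Finset.mul_prod_erase univ e (mem_univ b), map_mul]
    have h1 : aeval lam (e b) * aeval lam (∏ b' ∈ univ.erase b, e b') * t b =
        (aeval lam (e b) * t b) * aeval lam (∏ b' ∈ univ.erase b, e b') := by ring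
    rw [h1, hc b, Finset.sum_mul]
    refine Finset.sum_congr rfl fun a _ => ?_
    rw [map_mul]
    ring

/-- **The gap lemma for systems.** -/
theorem gap_sys {lam : ℝ} (hl0 : lam ≠ 0) (hl1 : |lam| < 1) (t : A → ℝ) {ε : ℝ} (hε : 0 < ε) :
    ∃ n0 : ℕ, ∀ n : ℕ, n0 ≤ n → ∀ D : ℕ, ε * n ≤ D → ∀ F G : A → ℤ[X],
      (∀ a i, |(((F a).coeff i : ℤ) : ℝ)| ≤ 1) → (∀ a i, |(((G a).coeff i : ℤ) : ℝ)| ≤ 1) →
      (∀ a i, n ≤ i → (F a).coeff i = 0) →
      ∑ a, t a * aeval lam (F a) + lam ^ (n + D) * ∑ a, t a * aeval lam (G a) = 0 →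
      ∑ a, t a * aeval lam (F a) = 0 := by
  classical
  obtain ⟨S, e, c, hI, he, hc⟩ := exists_basis lam t
  set B : ℝ := ∑ a, ∑ b, L1 (c a b) with hB
  have hB0 : 0 ≤ B := Finset.sum_nonneg fun a _ => Finset.sum_nonneg fun b _ => W1.L1_nonneg _
  set d0 : ℕ := ∑ a, ∑ b, (c a b).natDegree with hd0
  obtain ⟨n0, hn0⟩ := gap hl0 hl1 hB0 d0 hε
  refine ⟨n0, fun n hn D hD F G hF hG hFd h0 => ?_⟩
  -- the coordinates
  have hcoef : ∀ (F : A → ℤ[X]), (∀ a i, |(((F a).coeff i : ℤ) : ℝ)| ≤ 1) →
      ∀ a i, |(((∑ b, c a b * F b).coeff i : ℤ) : ℝ)| ≤ B := by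
    intro F hF a i
    rw [finsetSum_coeff]
    push_cast
    refine (Finset.abs_sum_le_sum_abs _ _).trans ?_
    have h1 : ∀ b ∈ (univ : Finset A), |(((c a b * F b).coeff i : ℤ) : ℝ)| ≤ L1 (c a b) := by
      intro b _
      have := coeff_mul_le (c a b) (F b) zero_le_one (hF b) i
      rwa [mul_one] at this
    refine (Finset.sum_le_sum h1).trans ?_
    rw [hB]
    exact Finset.single_le_sum (f := fun a => ∑ b, L1 (c a b))
      (fun a _ => Finset.sum_nonneg fun b _ => W1.L1_nonneg _) (mem_univ a)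
  have hval : ∀ F : A → ℤ[X], aeval lam e * ∑ b, t b * aeval lam (F b) =
      ∑ a ∈ S, t a * aeval lam (∑ b, c a b * F b) := by
    intro F
    rw [Finset.mul_sum]
    have h1 : ∀ b ∈ (univ : Finset A), aeval lam e * (t b * aeval lam (F b)) =
        ∑ a ∈ S, t a * (aeval lam (c a b) * aeval lam (F b)) := by
      intro b _
      rw [← mul_assoc, hc b, Finset.sum_mul]
      refine Finset.sum_congr rfl fun a _ => ?_
      ring
    rw [Finset.sum_congr rfl h1, Finset.sum_comm]
    refine Finset.sum_congr rfl fun a _ => ?_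
    rw [← Finset.mul_sum, map_sum]
    congr 1
    refine Finset.sum_congr rfl fun b _ => ?_
    rw [map_mul]
  have h1 : ∑ a ∈ S, t a * aeval lam ((∑ b, c a b * F b) + X ^ (n + D) * ∑ b, c a b * G b) = 0 := by
    have h2 : ∑ a ∈ S, t a * aeval lam ((∑ b, c a b * F b) + X ^ (n + D) * ∑ b, c a b * G b) =
        aeval lam e * (∑ a, t a * aeval lam (F a)) +
          lam ^ (n + D) * (aeval lam e * ∑ a, t a * aeval lam (G a)) := by
      rw [hval F, hval G, Finset.mul_sum, ← Finset.sum_add_distrib]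
      refine Finset.sum_congr rfl fun a _ => ?_
      rw [map_add, map_mul, map_pow, aeval_X]
      ring
    rw [h2]
    have h3 : aeval lam e * (∑ a, t a * aeval lam (F a)) +
          lam ^ (n + D) * (aeval lam e * ∑ a, t a * aeval lam (G a)) =
        aeval lam e * (∑ a, t a * aeval lam (F a) +
          lam ^ (n + D) * ∑ a, t a * aeval lam (G a)) := by ring
    rw [h3, h0, mul_zero]
  have h2 := hI _ h1
  have h3 : ∀ a ∈ S, aeval lam (∑ b, c a b * F b) = 0 := by
    intro a ha
    apply hn0 n hn D hD (∑ b, c a b * F b) (∑ b, c a b * G b) (hcoef F hF a) (hcoef G hG a)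
    · intro i hi
      rw [finsetSum_coeff]
      apply Finset.sum_eq_zero
      intro b _
      rw [coeff_mul]
      apply Finset.sum_eq_zero
      intro x hx
      rw [Finset.HasAntidiagonal.mem_antidiagonal] at hx
      by_cases hx2 : n ≤ x.2
      · rw [hFd b _ hx2, mul_zero]
      · have h4 : (c a b).natDegree ≤ d0 := by
          rw [hd0]
          have e1 : (c a b).natDegree ≤ ∑ b, (c a b).natDegree :=
            Finset.single_le_sum (f := fun b => (c a b).natDegree) (fun _ _ => Nat.zero_le _)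
              (mem_univ b)
          have e2 : ∑ b, (c a b).natDegree ≤ ∑ a, ∑ b, (c a b).natDegree :=
            Finset.single_le_sum (f := fun a => ∑ b, (c a b).natDegree) (fun _ _ => Nat.zero_le _)
              (mem_univ a)
          exact e1.trans e2
        rw [coeff_eq_zero_of_natDegree_lt (by omega), zero_mul]
    · have := h2 a ha
      rwa [map_add, map_mul, map_pow, aeval_X] at this
  have h4 : aeval lam e * ∑ b, t b * aeval lam (F b) = 0 := by
    rw [hval F]
    apply Finset.sum_eq_zero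
    intro a ha
    rw [h3 a ha, mul_zero]
  exact (mul_eq_zero.1 h4).resolve_left he

end basis

/-- the first letter of a word -/
theorem XX_succ {A : Type} (lam : ℝ) (t : A → ℝ) {k : ℕ} (p : Fin (k + 1) → A) :
    XX lam t p = t (p 0) + lam * XX lam t (Fin.tail p) := by
  unfold XX
  rw [Fin.sum_univ_succ, Finset.mul_sum]
  congr 1
  · simp
  · refine Finset.sum_congr rfl fun i _ => ?_
    simp only [Fin.tail, Fin.val_succ, pow_succ]
    ring

section free

variable {A : Type} [Fintype A]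

/-- relation polynomials of two words in blocks -/
theorem block_rel [DecidableEq A] (lam : ℝ) (t : A → ℝ) {n N : ℕ} (hnN : n ≤ N) {T : Type}
    (t' : T → ℝ) (u : T → (Fin n → A)) (s : ℝ) (hu : ∀ y, t' y = XX lam t (u y) + s) :
    ∀ (k : ℕ) (p q : Fin k → T), ∃ G : A → ℤ[X], (∀ a i, |(((G a).coeff i : ℤ) : ℝ)| ≤ 1) ∧
      ∑ a, t a * aeval lam (G a) = XX (lam ^ N) t' p - XX (lam ^ N) t' q := by
  intro k
  induction k with
  | zero =>
    intro p q
    refine ⟨fun _ => 0, fun a i => by simp, ?_⟩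
    simp [XX]
  | succ k ih =>
    intro p q
    obtain ⟨G, hG1, hG2⟩ := ih (Fin.tail p) (Fin.tail q)
    refine ⟨fun a => FF (u (p 0)) (u (q 0)) a + X ^ N * G a, ?_, ?_⟩
    · intro a i
      rw [coeff_add, coeff_X_pow_mul']
      by_cases hi : N ≤ i
      · rw [if_pos hi, FF_coeff_ge _ _ _ _ (hnN.trans hi), zero_add]
        exact hG1 a _
      · rw [if_neg hi, add_zero]
        exact_mod_cast FF_coeff_abs _ _ a i
    · rw [XX_succ, XX_succ, hu, hu]
      have h1 : ∑ a, t a * aeval lam (FF (u (p 0)) (u (q 0)) a + X ^ N * G a) =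
          ∑ a, t a * aeval lam (FF (u (p 0)) (u (q 0)) a) +
            lam ^ N * ∑ a, t a * aeval lam (G a) := by
        rw [Finset.mul_sum, ← Finset.sum_add_distrib]
        refine Finset.sum_congr rfl fun a _ => ?_
        rw [map_add, map_mul, map_pow, aeval_X]
        ring
      rw [h1, hG2, FF_aeval]
      ring

/-- **Padded words are free.** -/
theorem free_pad {lam : ℝ} (hl0 : lam ≠ 0) (hl1 : |lam| < 1) (t : A → ℝ) {ε : ℝ} (hε : 0 < ε) :
    ∃ n0 : ℕ, ∀ n : ℕ, n0 ≤ n → ∀ D : ℕ, ε * n ≤ D → ∀ (T : Type) (t' : T → ℝ)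
      (u : T → (Fin n → A)) (s : ℝ), (∀ y, t' y = XX lam t (u y) + s) → Function.Injective t' →
      Free (lam ^ (n + D)) t' := by
  classical
  obtain ⟨n0, hn0⟩ := gap_sys hl0 hl1 t hε
  refine ⟨n0, fun n hn D hD T t' u s hu hinj => ?_⟩
  intro k
  induction k with
  | zero =>
    intro p q _
    exact Subsingleton.elim p q
  | succ k ih =>
    intro p q hpq
    obtain ⟨G, hG1, hG2⟩ := block_rel lam t (Nat.le_add_right n D) t' u s hu k (Fin.tail p)
      (Fin.tail q)
    rw [XX_succ, XX_succ] at hpq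
    have h1 := hn0 n hn D hD (FF (u (p 0)) (u (q 0))) G
      (fun a i => by exact_mod_cast FF_coeff_abs _ _ a i) hG1
      (fun a i hi => FF_coeff_ge _ _ _ _ hi) (by
        rw [hG2, FF_aeval]
        have e1 := hu (p 0)
        have e2 := hu (q 0)
        linarith)
    rw [FF_aeval] at h1
    have h2 : t' (p 0) = t' (q 0) := by
      rw [hu, hu]
      linarith
    have h3 : p 0 = q 0 := hinj h2
    have h4 : XX (lam ^ (n + D)) t' (Fin.tail p) = XX (lam ^ (n + D)) t' (Fin.tail q) := by
      rw [h2] at hpq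
      have h5 : lam ^ (n + D) ≠ 0 := pow_ne_zero _ hl0
      have h6 := add_left_cancel hpq
      exact mul_left_cancel₀ h5 h6
    have h5 := ih _ _ h4
    rw [← Fin.cons_self_tail p, ← Fin.cons_self_tail q, h3, h5]

end free

end Pool.Agent.Y293.OV
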