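import Pool.Agent.Y293.OV.Quot
import Pool.Agent.H517R2.EO.T_W1

/-!
# A gap lemma for integer polynomials with bounded coefficients at a real number
-/

set_option autoImplicit false

open Finset Polynomial Filter

namespace Pool.Agent.Y293.OV

open H517.EO

theorem aeval_cast (lam : ℝ) (P : ℤ[X]) : aeval (lam : ℂ) P = ((aeval lam P : ℝ) : ℂ) := by
  rw [aeval_eq_sum_range, aeval_eq_sum_range]
  push_cast
  rfl

/-- bound of the values -/
theorem ev_bound {lam B : ℝ} (h1 : |lam| < 1) (hB : 0 ≤ B) (F : ℤ[X])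
    (hF : ∀ i, |((F.coeff i : ℤ) : ℝ)| ≤ B) : |aeval lam F| ≤ B / (1 - |lam|) := by
  rw [aeval_eq_sum_range]
  have h2 : ∀ i ∈ Finset.range (F.natDegree + 1), |F.coeff i • lam ^ i| ≤ B * |lam| ^ i := by
    intro i _
    rw [zsmul_eq_mul, abs_mul, abs_pow]
    exact mul_le_mul_of_nonneg_right (hF i) (by positivity)
  refine (Finset.abs_sum_le_sum_abs _ _).trans ((Finset.sum_le_sum h2).trans ?_)
  rw [← Finset.mul_sum]
  have h4 : (0 : ℝ) < 1 - |lam| := by linarith
  rw [div_eq_mul_inv]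
  apply mul_le_mul_of_nonneg_left _ hB
  rw [← one_div, le_div_iff₀ h4, geom_sum_mul_neg]
  have := pow_nonneg (abs_nonneg lam) (F.natDegree + 1)
  linarith

/-- a polynomial which vanishes at a root of an irreducible polynomial is divisible by it -/
theorem dvd_of_root {f G : ℤ[X]} (hf : Irreducible f) (hd : f.natDegree ≠ 0) {z : ℂ}
    (hfz : aeval z f = 0) (hG : aeval z G = 0) : f ∣ G := by
  have hprim := hf.isPrimitive hd
  have hQ : Irreducible (f.map (Int.castRingHom ℚ)) :=
    (IsPrimitive.Int.irreducible_iff_irreducible_map_cast hprim).1 hf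
  rw [IsPrimitive.Int.dvd_iff_map_cast_dvd_map_cast f G hprim]
  by_contra hnd
  have hcop : IsCoprime (f.map (Int.castRingHom ℚ)) (G.map (Int.castRingHom ℚ)) :=
    (Irreducible.coprime_iff_not_dvd hQ).2 hnd
  obtain ⟨a, b, hab⟩ := hcop
  have e : ∀ D : ℤ[X], aeval z D = aeval z (D.map (Int.castRingHom ℚ)) := by
    intro D
    rw [aeval_def, aeval_def, eval₂_map]
    congr 1
  have h1 := congrArg (aeval z) hab
  rw [map_add, map_mul, map_mul, ← e, ← e, hfz, hG, mul_zero, mul_zero, add_zero, map_one] at h1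
  exact zero_ne_one h1

/-- exponential decay beats polynomial growth, uniformly -/
theorem decay {q : ℝ} (hq0 : 0 < q) (hq1 : q < 1) {ε : ℝ} (hε : 0 < ε) (K : ℝ) (k s : ℕ) :
    ∃ n0 : ℕ, ∀ n : ℕ, n0 ≤ n → ∀ D : ℕ, ε * n ≤ D → q ^ D * K * ((n : ℝ) + s) ^ k < 1 := by
  have hr0 : 0 < q ^ ε := Real.rpow_pos_of_pos hq0 ε
  have hr1 : q ^ ε < 1 := Real.rpow_lt_one hq0.le hq1 hε
  have h1 : Tendsto (fun n : ℕ => ((n : ℝ) + s) ^ k * (q ^ ε) ^ n) atTop (nhds 0) := by
    have h2 := tendsto_pow_const_mul_const_pow_of_lt_one k hr0.le hr1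
    have h3 := ((tendsto_add_atTop_iff_nat (f := fun n : ℕ => (n : ℝ) ^ k * (q ^ ε) ^ n) s).2
      h2).mul_const (((q ^ ε) ^ s)⁻¹)
    rw [zero_mul] at h3
    refine h3.congr fun n => ?_
    have h4 : (q ^ ε) ^ s ≠ 0 := pow_ne_zero _ hr0.ne'
    push_cast
    rw [pow_add]
    field_simp
  have h2 : Tendsto (fun n : ℕ => |K| * (((n : ℝ) + s) ^ k * (q ^ ε) ^ n)) atTop (nhds 0) := by
    simpa using h1.const_mul |K|
  obtain ⟨n0, hn0⟩ := eventually_atTop.1 (h2.eventually (gt_mem_nhds one_pos))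
  refine ⟨n0, fun n hn D hD => ?_⟩
  have h3 := hn0 n hn
  have h4 : q ^ D ≤ (q ^ ε) ^ n := by
    rw [← Real.rpow_natCast q D, ← Real.rpow_natCast (q ^ ε) n, ← Real.rpow_mul hq0.le]
    exact Real.rpow_le_rpow_of_exponent_ge hq0 hq1.le hD
  have h5 : (0 : ℝ) ≤ ((n : ℝ) + s) ^ k := by positivity
  have h6 : (0 : ℝ) ≤ q ^ D := by positivity
  calc q ^ D * K * ((n : ℝ) + s) ^ k ≤ q ^ D * |K| * ((n : ℝ) + s) ^ k := by
        apply mul_le_mul_of_nonneg_right _ h5
        exact mul_le_mul_of_nonneg_left (le_abs_self K) h6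
    _ ≤ (q ^ ε) ^ n * |K| * ((n : ℝ) + s) ^ k := by
        apply mul_le_mul_of_nonneg_right _ h5
        exact mul_le_mul_of_nonneg_right h4 (abs_nonneg K)
    _ = |K| * (((n : ℝ) + s) ^ k * (q ^ ε) ^ n) := by ring
    _ < 1 := h3

/-- **The gap lemma.** -/
theorem gap {lam : ℝ} (hl0 : lam ≠ 0) (hl1 : |lam| < 1) {B : ℝ} (hB : 0 ≤ B) (d0 : ℕ) {ε : ℝ}
    (hε : 0 < ε) : ∃ n0 : ℕ, ∀ n : ℕ, n0 ≤ n → ∀ D : ℕ, ε * n ≤ D → ∀ P Q : ℤ[X],
      (∀ i, |((P.coeff i : ℤ) : ℝ)| ≤ B) → (∀ i, |((Q.coeff i : ℤ) : ℝ)| ≤ B) →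
      (∀ i, n + d0 ≤ i → P.coeff i = 0) →
      aeval lam P + lam ^ (n + D) * aeval lam Q = 0 → aeval lam P = 0 := by
  have hq0 : 0 < |lam| := abs_pos.2 hl0
  -- the length of the padding is at least `d0`
  have hD0 : ∃ n1 : ℕ, ∀ n : ℕ, n1 ≤ n → ∀ D : ℕ, ε * n ≤ D → d0 ≤ D := by
    obtain ⟨n1, hn1⟩ := exists_nat_ge ((d0 : ℝ) / ε)
    refine ⟨n1, fun n hn D hD => ?_⟩
    rw [div_le_iff₀ hε] at hn1
    have h1 : (n1 : ℝ) ≤ n := by exact_mod_cast hn
    have h2 : (d0 : ℝ) ≤ D := by nlinarith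
    exact_mod_cast h2
  obtain ⟨n1, hn1⟩ := hD0
  by_cases halg : ∃ m : ℤ[X], m ≠ 0 ∧ aeval (lam : ℂ) m = 0
  · obtain ⟨m, hm0, hm⟩ := halg
    obtain ⟨f, hf, -, hfz, hfd⟩ := W1.exists_factor m lam hm0 hm
    obtain ⟨C0, k, hC0, hquot⟩ := quot_int f hf.ne_zero
    set r := f.natDegree with hr
    have hf0 : f ≠ 0 := hf.ne_zero
    -- constants
    set L : ℝ := L1 f with hL
    have hL1 : 1 ≤ L := W1.one_le_L1 f hf0
    set K1 : ℝ := B / (1 - |lam|) with hK1
    have h1l : (0 : ℝ) < 1 - |lam| := by linarith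
    have hK10 : 0 ≤ K1 := div_nonneg hB h1l.le
    -- coefficients of E are at most `K2 (n + d0 + 1)^k`
    set K2 : ℝ := ((r : ℝ) + 1) * (L * (C0 * B)) + 1 with hK2
    have hK20 : 0 ≤ K2 := by positivity
    obtain ⟨n2, hn2⟩ := decay hq0 hl1 hε ((|lam| ^ d0)⁻¹ * K1 * K2 ^ r * L ^ r) (k * r)
      (d0 + 1)
    refine ⟨max n1 n2, fun n hn D hD P Q hP hQ hPd h0 => ?_⟩
    have hdD : d0 ≤ D := hn1 n (le_trans (le_max_left _ _) hn) D hD
    have hlt := hn2 n (le_trans (le_max_right _ _) hn) D hD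
    by_contra hne
    set s := n + d0 with hs
    set N := n + D with hN
    have hsN : s ≤ N := by omega
    set G : ℤ[X] := P + X ^ N * Q with hG
    have hGz : aeval (lam : ℂ) G = 0 := by
      rw [aeval_cast, hG, map_add, map_mul, map_pow, aeval_X, h0, Complex.ofReal_zero]
    obtain ⟨H, hH⟩ := dvd_of_root hf hfd hfz hGz
    -- coefficients of `G`
    have hGc : ∀ i, |((G.coeff i : ℤ) : ℝ)| ≤ B := by
      intro i
      rw [hG, coeff_add, coeff_X_pow_mul']
      by_cases hi : N ≤ i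
      · rw [if_pos hi, hPd i (by omega), zero_add]
        exact hQ _
      · rw [if_neg hi, add_zero]
        exact hP i
    have hHc : ∀ i : ℕ, |((H.coeff i : ℤ) : ℝ)| ≤ C0 * B * ((i : ℝ) + 1) ^ k := by
      apply hquot H B hB
      intro i
      rw [← hH]
      exact hGc i
    -- truncation of `H`
    set H0 : ℤ[X] := ∑ i ∈ range s, monomial i (H.coeff i) with hH0
    have hH0c : ∀ i, H0.coeff i = if i < s then H.coeff i else 0 := by
      intro i
      rw [hH0, finset_sum_coeff]
      simp only [coeff_monomial]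
      rw [Finset.sum_ite_eq' (range s) i]
      simp only [mem_range]
    -- the coefficients of `f * H0`
    have hlow : ∀ i, i < s → (f * H0).coeff i = P.coeff i := by
      intro i hi
      have e1 : (f * H0).coeff i = (f * H).coeff i := by
        rw [coeff_mul, coeff_mul]
        refine Finset.sum_congr rfl fun x hx => ?_
        rw [Finset.HasAntidiagonal.mem_antidiagonal] at hx
        rw [hH0c, if_pos (by omega)]
      rw [e1, ← hH, hG, coeff_add, coeff_X_pow_mul', if_neg (by omega), add_zero]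
    set E : ℤ[X] := divX^[s] (f * H0) with hE
    have hEc : ∀ i, E.coeff i = (f * H0).coeff (i + s) := by
      have : ∀ (s : ℕ) (F : ℤ[X]) (i : ℕ), (divX^[s] F).coeff i = F.coeff (i + s) := by
        intro s
        induction s with
        | zero => intro F i; rfl
        | succ s ih =>
          intro F i
          rw [Function.iterate_succ_apply, ih, coeff_divX]
          congr 1
      intro i
      rw [hE, this]
    have hEeq : f * H0 = P + X ^ s * E := by
      ext i
      rw [coeff_add, coeff_X_pow_mul']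
      by_cases hi : s ≤ i
      · rw [if_pos hi, hPd i hi, zero_add, hEc]
        congr 1
        omega
      · rw [if_neg hi, add_zero]
        exact hlow i (by omega)
    -- values at `lam`
    have hfl : aeval lam f = 0 := by
      have := aeval_cast lam f
      rw [hfz] at this
      exact_mod_cast this.symm
    have hval : aeval lam P = - (lam ^ s * aeval lam E) := by
      have h2 := congrArg (aeval lam) hEeq
      rw [map_mul, hfl, zero_mul, map_add, map_mul, map_pow, aeval_X] at h2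
      linarith
    have hEne : aeval lam E ≠ 0 := by
      intro h3
      rw [h3, mul_zero, neg_zero] at hval
      exact hne hval
    have hEval : |aeval lam E| ≤ |lam| ^ D * (|lam| ^ d0)⁻¹ * K1 := by
      have h3 : |aeval lam P| = |lam| ^ s * |aeval lam E| := by
        rw [hval, abs_neg, abs_mul, abs_pow]
      have h4 : |aeval lam P| = |lam| ^ N * |aeval lam Q| := by
        have : aeval lam P = - (lam ^ N * aeval lam Q) := by linarith
        rw [this, abs_neg, abs_mul, abs_pow]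
      have h5 : |aeval lam Q| ≤ K1 := ev_bound hl1 hB Q hQ
      have h6 : |lam| ^ s * |aeval lam E| ≤ |lam| ^ N * K1 := by
        rw [← h3, h4]
        exact mul_le_mul_of_nonneg_left h5 (by positivity)
      have h7 : (0 : ℝ) < |lam| ^ n := by positivity
      have h8 : (0 : ℝ) < |lam| ^ d0 := by positivity
      rw [hs, hN, pow_add, pow_add] at h6
      have h9 : |lam| ^ d0 * |aeval lam E| ≤ |lam| ^ D * K1 := by
        have : |lam| ^ n * (|lam| ^ d0 * |aeval lam E|) ≤ |lam| ^ n * (|lam| ^ D * K1) := by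
          linarith
        exact le_of_mul_le_mul_left this h7
      rw [mul_assoc, mul_comm ((|lam| ^ d0)⁻¹) K1, ← mul_assoc, ← div_eq_mul_inv, le_div_iff₀ h8]
      linarith
    -- size of `E`
    have hEdeg : ∀ i, r < i → E.coeff i = 0 := by
      intro i hi
      rw [hEc]
      apply coeff_eq_zero_of_natDegree_lt
      have e1 : (f * H0).natDegree ≤ r + H0.natDegree := natDegree_mul_le
      have e2 : H0.natDegree ≤ s := by
        rw [natDegree_le_iff_coeff_eq_zero]
        intro j hj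
        rw [hH0c, if_neg (by omega)]
      omega
    have hEnd : E.natDegree ≤ r := by
      rw [natDegree_le_iff_coeff_eq_zero]
      exact hEdeg
    have hEb : ∀ i, |((E.coeff i : ℤ) : ℝ)| ≤ L * (C0 * B * ((s : ℝ) + 1) ^ k) := by
      intro i
      rw [hEc, coeff_mul]
      push_cast
      refine (Finset.abs_sum_le_sum_abs _ _).trans ?_
      have e1 : ∀ x ∈ antidiagonal (i + s), |((f.coeff x.1 : ℤ) : ℝ) * ((H0.coeff x.2 : ℤ) : ℝ)| ≤
          |((f.coeff x.1 : ℤ) : ℝ)| * (C0 * B * ((s : ℝ) + 1) ^ k) := by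
        intro x _
        rw [abs_mul]
        apply mul_le_mul_of_nonneg_left _ (abs_nonneg _)
        rw [hH0c]
        by_cases hx : x.2 < s
        · rw [if_pos hx]
          refine (hHc x.2).trans ?_
          apply mul_le_mul_of_nonneg_left _ (by positivity)
          apply pow_le_pow_left₀ (by positivity)
          have : (x.2 : ℝ) ≤ s := by exact_mod_cast hx.le
          linarith
        · rw [if_neg hx]
          simp only [Int.cast_zero, abs_zero]
          positivity
      refine (Finset.sum_le_sum e1).trans ?_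
      rw [← Finset.sum_mul]
      apply mul_le_mul_of_nonneg_right _ (by positivity)
      -- the sum over the antidiagonal
      rw [Finset.Nat.sum_antidiagonal_eq_sum_range_succ_mk]
      simp only
      rw [hL]
      unfold L1
      have e2 : ∑ j ∈ range (i + s).succ, |((f.coeff j : ℤ) : ℝ)| ≤
          ∑ j ∈ range (max (i + s).succ (f.natDegree + 1)), |((f.coeff j : ℤ) : ℝ)| :=
        Finset.sum_le_sum_of_subset_of_nonneg
          (Finset.range_subset_range.2 (le_max_left _ _)) (fun _ _ _ => abs_nonneg _)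
      refine e2.trans (le_of_eq ?_)
      symm
      apply Finset.sum_subset (Finset.range_subset_range.2 (le_max_right _ _))
      intro j _ hj
      rw [mem_range, not_lt] at hj
      rw [coeff_eq_zero_of_natDegree_lt (by omega)]
      simp
    have hEL : L1 E ≤ K2 * ((n : ℝ) + ((d0 + 1 : ℕ) : ℝ)) ^ k := by
      unfold L1
      have e1 : ∑ i ∈ range (E.natDegree + 1), |((E.coeff i : ℤ) : ℝ)| ≤
          ∑ i ∈ range (E.natDegree + 1), L * (C0 * B * ((s : ℝ) + 1) ^ k) :=
        Finset.sum_le_sum fun i _ => hEb i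
      rw [Finset.sum_const, card_range, nsmul_eq_mul] at e1
      have e2 : ((E.natDegree + 1 : ℕ) : ℝ) ≤ (r : ℝ) + 1 := by
        push_cast
        have : (E.natDegree : ℝ) ≤ r := by exact_mod_cast hEnd
        linarith
      have e3 : (0 : ℝ) ≤ L * (C0 * B * ((s : ℝ) + 1) ^ k) := by positivity
      have e4 : (s : ℝ) + 1 = (n : ℝ) + ((d0 + 1 : ℕ) : ℝ) := by
        rw [hs]; push_cast; ring
      have e5 : (0 : ℝ) ≤ ((s : ℝ) + 1) ^ k := by positivity
      calc _ ≤ _ := e1
        _ ≤ ((r : ℝ) + 1) * (L * (C0 * B * ((s : ℝ) + 1) ^ k)) := mul_le_mul_of_nonneg_right e2 e3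
        _ ≤ K2 * ((s : ℝ) + 1) ^ k := by rw [hK2]; nlinarith
        _ = _ := by rw [e4]
    -- Liouville
    have hliou := t_W_liou f E lam hf0 hfz (by
      rw [aeval_cast]
      exact_mod_cast hEne)
    rw [aeval_cast, Complex.norm_real, Real.norm_eq_abs] at hliou
    have hL1E : 0 ≤ L1 E := W1.L1_nonneg E
    have h10 : L1 E ^ f.natDegree ≤ K2 ^ r * ((n : ℝ) + ((d0 + 1 : ℕ) : ℝ)) ^ (k * r) := by
      rw [pow_mul, ← mul_pow]
      exact pow_le_pow_left₀ hL1E hEL _
    have h11 : L1 f ^ E.natDegree ≤ L ^ r := pow_le_pow_right₀ hL1 hEnd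
    have h12 : |aeval lam E| * L1 E ^ f.natDegree * L1 f ^ E.natDegree ≤
        (|lam| ^ D * (|lam| ^ d0)⁻¹ * K1) * (K2 ^ r * ((n : ℝ) + ((d0 + 1 : ℕ) : ℝ)) ^ (k * r)) *
          L ^ r := by
      apply mul_le_mul (mul_le_mul hEval h10 (by positivity) (by positivity)) h11
        (by positivity) (by positivity)
    have h13 : (|lam| ^ D * (|lam| ^ d0)⁻¹ * K1) * (K2 ^ r * ((n : ℝ) + ((d0 + 1 : ℕ) : ℝ)) ^ (k * r)) *
          L ^ r = |lam| ^ D * ((|lam| ^ d0)⁻¹ * K1 * K2 ^ r * L ^ r) *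
            ((n : ℝ) + ((d0 + 1 : ℕ) : ℝ)) ^ (k * r) := by ring
    rw [h13] at h12
    linarith
  · push Not at halg
    refine ⟨n1, fun n hn D hD P Q hP hQ hPd h0 => ?_⟩
    have hdD : d0 ≤ D := hn1 n hn D hD
    have hG : P + X ^ (n + D) * Q = 0 := by
      by_contra hne
      apply halg _ hne
      rw [aeval_cast, map_add, map_mul, map_pow, aeval_X, h0, Complex.ofReal_zero]
    have hP0 : P = 0 := by
      ext i
      by_cases hi : n + d0 ≤ i
      · rw [hPd i hi, coeff_zero]
      · have h2 := congrArg (fun F => coeff F i) hG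
        simp only [coeff_add, coeff_zero] at h2
        rw [coeff_X_pow_mul', if_neg (by omega), add_zero] at h2
        rw [h2, coeff_zero]
    rw [hP0, map_zero]

end Pool.Agent.Y293.OV
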