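import Pool.Agent.Y293.OV.Free
import Pool.Agent.Y293.EO.Base
import Pool.Agent.H517R2.EO.T_G_upper
import Pool.Agent.H517R2.EO.T_G2

/-!
# Dimension of homogeneous self-similar sets with arbitrary overlaps
-/

set_option autoImplicit false

open Finset Filter MeasureTheory Topology

namespace Pool.Agent.Y293.OV

open H517.EO

section sets

variable {A : Type} [Fintype A]

open Classical in
/-- the distinct values of words of length `n` -/
noncomputable def vals (lam : ℝ) (t : A → ℝ) (n : ℕ) : Finset ℝ :=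
  univ.image (fun p : Fin n → A => XX lam t p)

theorem mem_vals {lam : ℝ} {t : A → ℝ} {n : ℕ} {y : ℝ} :
    y ∈ vals lam t n ↔ ∃ p : Fin n → A, XX lam t p = y := by
  classical
  unfold vals
  simp

theorem vals_pos [Nonempty A] (lam : ℝ) (t : A → ℝ) (n : ℕ) : 0 < (vals lam t n).card := by
  obtain ⟨a⟩ := ‹Nonempty A›
  exact Finset.card_pos.2 ⟨_, mem_vals.2 ⟨fun _ => a, rfl⟩⟩

theorem vals_add (lam : ℝ) (t : A → ℝ) (m n : ℕ) :
    (vals lam t (m + n)).card ≤ (vals lam t m).card * (vals lam t n).card := by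
  classical
  rw [← Finset.card_product]
  refine (Finset.card_le_card ?_).trans
    (Finset.card_image_le (s := vals lam t m ×ˢ vals lam t n)
      (f := fun x : ℝ × ℝ => x.1 + lam ^ m * x.2))
  intro y hy
  obtain ⟨p, rfl⟩ := mem_vals.1 hy
  rw [Finset.mem_image]
  refine ⟨(XX lam t (fun i => p (Fin.castAdd n i)), XX lam t (fun i => p (Fin.natAdd m i))),
    Finset.mem_product.2 ⟨mem_vals.2 ⟨_, rfl⟩, mem_vals.2 ⟨_, rfl⟩⟩, ?_⟩
  simp only
  rw [← XX_append, Fin.append_castAdd_natAdd]

/-- the growth sequence -/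
noncomputable def lg (lam : ℝ) (t : A → ℝ) (n : ℕ) : ℝ := Real.log ((vals lam t n).card : ℝ)

theorem lg_nonneg (lam : ℝ) (t : A → ℝ) (n : ℕ) : 0 ≤ lg lam t n := Real.log_natCast_nonneg _

theorem lg_sub [Nonempty A] (lam : ℝ) (t : A → ℝ) : Subadditive (lg lam t) := by
  intro m n
  unfold lg
  have h1 : (0 : ℝ) < (vals lam t m).card := by exact_mod_cast vals_pos lam t m
  have h2 : (0 : ℝ) < (vals lam t n).card := by exact_mod_cast vals_pos lam t n
  have h3 : (0 : ℝ) < (vals lam t (m + n)).card := by exact_mod_cast vals_pos lam t (m + n)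
  rw [← Real.log_mul h1.ne' h2.ne']
  apply Real.log_le_log h3
  exact_mod_cast vals_add lam t m n

theorem lg_bdd (lam : ℝ) (t : A → ℝ) : BddBelow (Set.range fun n : ℕ => lg lam t n / n) := by
  refine ⟨0, ?_⟩
  rintro _ ⟨n, rfl⟩
  exact div_nonneg (lg_nonneg lam t n) (Nat.cast_nonneg _)

/-- the growth rate -/
theorem growth [Nonempty A] (lam : ℝ) (t : A → ℝ) :
    Tendsto (fun n : ℕ => lg lam t n / n) atTop (𝓝 (lg_sub lam t).lim) :=
  (lg_sub lam t).tendsto_lim (lg_bdd lam t)

/-- `X` is a union of copies indexed by the values -/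
theorem level (lam : ℝ) (t : A → ℝ) {X : Set ℝ} (hX : X = ⋃ a, (fun x : ℝ => lam * x + t a) '' X)
    (n : ℕ) : X = ⋃ y : vals lam t n, (fun x : ℝ => lam ^ n * x + y) '' X := by
  apply Set.Subset.antisymm
  · have key : ∀ n : ℕ, ∀ x ∈ X, ∃ (p : Fin n → A), ∃ z ∈ X, lam ^ n * z + XX lam t p = x := by
      intro n
      induction n with
      | zero =>
        intro x hx
        exact ⟨Fin.elim0, x, hx, by simp [XX]⟩
      | succ n ih =>
        intro x hx
        rw [hX] at hx
        obtain ⟨a, y, hy, rfl⟩ := Set.mem_iUnion.1 hx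
        obtain ⟨p, z, hz, rfl⟩ := ih y hy
        refine ⟨Fin.cons a p, z, hz, ?_⟩
        rw [XX_succ]
        simp only [Fin.cons_zero, Fin.tail_cons]
        ring
    intro x hx
    obtain ⟨p, z, hz, rfl⟩ := key n x hx
    exact Set.mem_iUnion.2 ⟨⟨_, mem_vals.2 ⟨p, rfl⟩⟩, z, hz, rfl⟩
  · intro x hx
    obtain ⟨⟨y, hy⟩, z, hz, rfl⟩ := Set.mem_iUnion.1 hx
    obtain ⟨p, rfl⟩ := mem_vals.1 hy
    refine G2_inv lam t X (fun a x hx => ?_) n p z hz
    rw [hX]
    exact Set.mem_iUnion.2 ⟨a, x, hx, rfl⟩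

/-- upper bound at level `n` -/
theorem up_n [Nonempty A] {lam : ℝ} (hl0 : lam ≠ 0) (hl1 : |lam| < 1) (t : A → ℝ) {X : Set ℝ}
    (hne : X.Nonempty) (hc : IsCompact X) (hX : X = ⋃ a, (fun x : ℝ => lam * x + t a) '' X)
    {n : ℕ} (hn : 0 < n) :
    dimH X ≤ ENNReal.ofReal (min 1 (lg lam t n / n / Real.log (1 / |lam|))) := by
  have hchi : 0 < Real.log (1 / |lam|) := Real.log_pos (by
    rw [lt_div_iff₀ (abs_pos.2 hl0)]; linarith)
  have hn' : (0 : ℝ) < n := by exact_mod_cast hn
  set e := (vals lam t n).equivFin with he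
  refine t_G_upper (vals lam t n).card (fun _ => lam ^ n) (fun i => (e.symm i : ℝ))
    (vals_pos lam t n) (fun i => ⟨pow_ne_zero _ hl0, ?_⟩) X hne hc ?_ _ ?_
  · rw [abs_pow]
    exact pow_lt_one₀ (abs_nonneg _) hl1 hn.ne'
  · conv_lhs => rw [level lam t hX n]
    apply Set.Subset.antisymm
    · intro x hx
      obtain ⟨y, z, hz, rfl⟩ := Set.mem_iUnion.1 hx
      refine Set.mem_iUnion.2 ⟨e y, z, hz, ?_⟩
      simp
    · intro x hx
      obtain ⟨i, z, hz, rfl⟩ := Set.mem_iUnion.1 hx
      exact Set.mem_iUnion.2 ⟨e.symm i, z, hz, rfl⟩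
  · rw [Finset.sum_const, card_univ, Fintype.card_fin, nsmul_eq_mul, abs_pow]
    have h1 : (0 : ℝ) < (vals lam t n).card := by exact_mod_cast vals_pos lam t n
    have h2 : (|lam| ^ n) ^ (lg lam t n / n / Real.log (1 / |lam|)) =
        Real.exp (- lg lam t n) := by
      rw [Real.rpow_def_of_pos (pow_pos (abs_pos.2 hl0) n), Real.log_pow]
      congr 1
      have h3 : Real.log (1 / |lam|) = - Real.log |lam| := by
        rw [one_div, Real.log_inv]
      rw [h3] at hchi ⊢
      have h4 : Real.log |lam| ≠ 0 := by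
        intro h
        rw [h] at hchi
        simp at hchi
      field_simp
    rw [h2, Real.exp_neg]
    unfold lg
    rw [Real.exp_log h1, mul_inv_cancel₀ h1.ne']

/-- lower bound at level `n` with padding -/
theorem low_n [Nonempty A] {lam : ℝ} (hl0 : lam ≠ 0) (hl1 : |lam| < 1) (t : A → ℝ) {ε : ℝ}
    (hε : 0 < ε) : ∃ n0 : ℕ, ∀ n : ℕ, n0 ≤ n → 0 < n → ∀ D : ℕ, ε * n ≤ D → Even (n + D) →
      ∀ X : Set ℝ, X.Nonempty → IsCompact X → (∀ a, ∀ x ∈ X, lam * x + t a ∈ X) →
      ENNReal.ofReal (min 1 (lg lam t n / (((n + D : ℕ) : ℝ) * Real.log (1 / |lam|)))) ≤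
        dimH X := by
  classical
  obtain ⟨n0, hn0⟩ := free_pad hl0 hl1 t hε
  refine ⟨n0, fun n hn hnpos D hD hev X hne hc hinv => ?_⟩
  have hpos : 0 < lam ^ (n + D) := hev.pow_pos hl0
  have hlt : lam ^ (n + D) < 1 := by
    rw [← hev.pow_abs]
    exact pow_lt_one₀ (abs_nonneg _) hl1 (by omega)
  by_cases hcard : (vals lam t n).card < 2
  · have h1 : (vals lam t n).card = 1 := by
      have := vals_pos lam t n
      omega
    have h2 : lg lam t n = 0 := by
      unfold lg
      rw [h1]
      simp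
    rw [h2, zero_div, min_eq_right zero_le_one, ENNReal.ofReal_zero]
    exact zero_le
  · push Not at hcard
    obtain ⟨a0⟩ := ‹Nonempty A›
    have hch : ∀ y : vals lam t n, ∃ p : Fin n → A, XX lam t p = y := fun y => mem_vals.1 y.2
    choose u hu using hch
    set s : ℝ := lam ^ n * XX lam t (fun _ : Fin D => a0) with hs
    have hfree := hn0 n hn D hD (vals lam t n) (fun y => (y : ℝ) + s) u s
      (fun y => by rw [hu]) (fun y z h => by
        have : (y : ℝ) = z := by
          simp only at h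
          linarith
        exact Subtype.ext this)
    have h1 := EO.homog (vals lam t n) (lam ^ (n + D)) (fun y => (y : ℝ) + s)
      (by rw [Fintype.card_coe]; exact hcard) hpos hlt hfree X hne hc (by
        intro y x hx
        have h2 := G2_inv lam t X hinv (n + D) (Fin.append (u y) (fun _ : Fin D => a0)) x hx
        rw [XX_append, hu] at h2
        simpa [hs] using h2)
    rw [Fintype.card_coe] at h1
    have h3 : Real.log (1 / lam ^ (n + D)) = ((n + D : ℕ) : ℝ) * Real.log (1 / |lam|) := by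
      rw [← hev.pow_abs, one_div, one_div, ← inv_pow, Real.log_pow]
    rw [h3] at h1
    exact h1

/-- **Dimension of homogeneous self-similar sets.** -/
theorem dim_sets [Nonempty A] {lam : ℝ} (hl0 : lam ≠ 0) (hl1 : |lam| < 1) (t : A → ℝ) {X : Set ℝ}
    (hne : X.Nonempty) (hc : IsCompact X) (hX : X = ⋃ a, (fun x : ℝ => lam * x + t a) '' X) :
    dimH X = ENNReal.ofReal (min 1 ((lg_sub lam t).lim / Real.log (1 / |lam|))) := by
  have hchi : 0 < Real.log (1 / |lam|) := Real.log_pos (by
    rw [lt_div_iff₀ (abs_pos.2 hl0)]; linarith)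
  set chi := Real.log (1 / |lam|) with hchid
  set g := (lg_sub lam t).lim with hg
  have hgr := growth lam t
  rw [← hg] at hgr
  have hinv : ∀ a, ∀ x ∈ X, lam * x + t a ∈ X := by
    intro a x hx
    rw [hX]
    exact Set.mem_iUnion.2 ⟨a, x, hx, rfl⟩
  apply le_antisymm
  · have h1 : Tendsto (fun n : ℕ => ENNReal.ofReal (min 1 (lg lam t n / n / chi))) atTop
        (𝓝 (ENNReal.ofReal (min 1 (g / chi)))) :=
      (ENNReal.continuous_ofReal.tendsto _).comp
        (tendsto_const_nhds.min (hgr.div_const chi))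
    refine ge_of_tendsto h1 ?_
    filter_upwards [eventually_gt_atTop 0] with n hn
    exact up_n hl0 hl1 t hne hc hX hn
  · -- for every `ε`
    have key : ∀ ε : ℝ, 0 < ε → ENNReal.ofReal (min 1 (g / ((1 + ε) * chi))) ≤ dimH X := by
      intro ε hε
      obtain ⟨n0, hn0⟩ := low_n hl0 hl1 t hε
      -- the choice of the padding
      have hD : ∀ n : ℕ, ∃ D : ℕ, ε * n ≤ D ∧ Even (n + D) ∧ (D : ℝ) ≤ ε * n + 2 := by
        intro n
        have h1 := Nat.le_ceil (ε * n)
        have h2 := Nat.ceil_lt_add_one (show 0 ≤ ε * n by positivity)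
        rcases Nat.even_or_odd (n + ⌈ε * n⌉₊) with h | h
        · exact ⟨⌈ε * n⌉₊, h1, h, by linarith⟩
        · refine ⟨⌈ε * n⌉₊ + 1, ?_, ?_, ?_⟩
          · push_cast; linarith
          · rw [← add_assoc]
            exact h.add_one
          · push_cast; linarith
      choose D hD1 hD2 hD3 using hD
      have hlow : ∀ n : ℕ, n0 ≤ n → 0 < n →
          ENNReal.ofReal (min 1 (lg lam t n / n * (((1 + ε) + 2 / n) * chi)⁻¹)) ≤ dimH X := by
        intro n hn hnpos
        refine le_trans ?_ (hn0 n hn hnpos (D n) (hD1 n) (hD2 n) X hne hc hinv)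
        apply ENNReal.ofReal_le_ofReal
        apply min_le_min le_rfl
        have hn' : (0 : ℝ) < n := by exact_mod_cast hnpos
        have h1 : lg lam t n / n * (((1 + ε) + 2 / n) * chi)⁻¹ =
            lg lam t n / ((n * (1 + ε) + 2) * chi) := by
          rw [← div_eq_mul_inv, div_div]
          congr 1
          field_simp
        rw [h1]
        apply div_le_div_of_nonneg_left (lg_nonneg _ _ _)
        · positivity
        · apply mul_le_mul_of_nonneg_right _ hchi.le
          push_cast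
          have := hD3 n
          linarith
      have h1 : Tendsto (fun n : ℕ => ENNReal.ofReal (min 1 (lg lam t n / n *
          (((1 + ε) + 2 / (n : ℝ)) * chi)⁻¹))) atTop
          (𝓝 (ENNReal.ofReal (min 1 (g * (((1 + ε) + 0) * chi)⁻¹)))) := by
        refine (ENNReal.continuous_ofReal.tendsto _).comp
          (tendsto_const_nhds.min (hgr.mul (Tendsto.inv₀ ?_ ?_)))
        · exact (tendsto_const_nhds.add (tendsto_const_div_atTop_nhds_zero_nat 2)).mul_const chi
        · positivity
      rw [add_zero, ← div_eq_mul_inv] at h1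
      refine le_of_tendsto h1 ?_
      filter_upwards [eventually_gt_atTop 0, eventually_ge_atTop n0] with n hn hn2
      exact hlow n hn2 hn
    have h1 : Tendsto (fun k : ℕ => ENNReal.ofReal (min 1 (g / ((1 + 1 / ((k : ℝ) + 1)) * chi))))
        atTop (𝓝 (ENNReal.ofReal (min 1 (g / ((1 + 0) * chi))))) := by
      refine (ENNReal.continuous_ofReal.tendsto _).comp
        (tendsto_const_nhds.min (tendsto_const_nhds.div ?_ ?_))
      · exact (tendsto_const_nhds.add tendsto_one_div_add_atTop_nhds_zero_nat).mul_const chi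
      · positivity
    rw [add_zero, one_mul] at h1
    refine le_of_tendsto h1 (Eventually.of_forall fun k => ?_)
    exact key _ (by positivity)

end sets

end Pool.Agent.Y293.OV
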