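import Pool.Agent.Y293.OV.Rel
import Pool.Agent.Y293.OV.Sets

/-!
# The law of the random sums and its entropy
-/

set_option autoImplicit false

open Finset Filter MeasureTheory

namespace Pool.Agent.Y293.OV

open H517.EO Pool.Agent.Y293.EM

section entropy

theorem nml_add {a b : ℝ} (ha : 0 ≤ a) (hb : 0 ≤ b) :
    Real.negMulLog (a + b) ≤ Real.negMulLog a + Real.negMulLog b := by
  rcases ha.eq_or_lt with h | h
  · rw [← h, zero_add, Real.negMulLog_zero, zero_add]
  rcases hb.eq_or_lt with h' | h'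
  · rw [← h', add_zero, Real.negMulLog_zero, add_zero]
  unfold Real.negMulLog
  have h1 : Real.log a ≤ Real.log (a + b) := Real.log_le_log h (by linarith)
  have h2 : Real.log b ≤ Real.log (a + b) := Real.log_le_log h' (by linarith)
  nlinarith

theorem nml_sum {ι : Type} (S : Finset ι) (f : ι → ℝ) (hf : ∀ i ∈ S, 0 ≤ f i) :
    Real.negMulLog (∑ i ∈ S, f i) ≤ ∑ i ∈ S, Real.negMulLog (f i) := by
  classical
  induction S using Finset.induction_on with
  | empty => simp
  | insert a S ha ih =>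
    rw [Finset.sum_insert ha, Finset.sum_insert ha]
    have h1 := ih fun i hi => hf i (Finset.mem_insert_of_mem hi)
    have h2 := nml_add (hf a (Finset.mem_insert_self a S))
      (Finset.sum_nonneg fun i hi => hf i (Finset.mem_insert_of_mem hi))
    linarith

open Classical in
/-- probability of a value -/
noncomputable def prob {Ω β : Type} [Fintype Ω] (P : Ω → ℝ) (f : Ω → β) (b : β) : ℝ :=
  ∑ ω, if f ω = b then P ω else 0

open Classical in
/-- entropy of the image of a law -/
noncomputable def hent {Ω β : Type} [Fintype Ω] (P : Ω → ℝ) (f : Ω → β) : ℝ :=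
  ∑ b ∈ univ.image f, Real.negMulLog (prob P f b)

variable {Ω β γ : Type} [Fintype Ω] {P : Ω → ℝ}

theorem prob_nonneg (hP : ∀ ω, 0 ≤ P ω) (f : Ω → β) (b : β) : 0 ≤ prob P f b := by
  unfold prob
  exact Finset.sum_nonneg fun ω _ => by split_ifs <;> simp [hP ω]

theorem prob_le_one (hP : ∀ ω, 0 ≤ P ω) (hP1 : ∑ ω, P ω = 1) (f : Ω → β) (b : β) :
    prob P f b ≤ 1 := by
  unfold prob
  rw [← hP1]
  refine Finset.sum_le_sum fun ω _ => ?_
  split_ifs
  · exact le_rfl
  · exact hP ω

open Classical in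
theorem sum_prob (f : Ω → β) : ∑ b ∈ univ.image f, prob P f b = ∑ ω, P ω := by
  unfold prob
  rw [Finset.sum_comm]
  refine Finset.sum_congr rfl fun ω _ => ?_
  rw [Finset.sum_ite_eq]
  rw [if_pos (Finset.mem_image_of_mem f (Finset.mem_univ ω))]

theorem hent_nonneg (hP : ∀ ω, 0 ≤ P ω) (hP1 : ∑ ω, P ω = 1) (f : Ω → β) : 0 ≤ hent P f := by
  unfold hent
  exact Finset.sum_nonneg fun b _ =>
    Real.negMulLog_nonneg (prob_nonneg hP f b) (prob_le_one hP hP1 f b)

open Classical in
/-- a function of a random variable has smaller entropy -/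
theorem hent_comp (hP : ∀ ω, 0 ≤ P ω) (f : Ω → β) (g : β → γ) :
    hent P (fun ω => g (f ω)) ≤ hent P f := by
  unfold hent
  have h1 : ∀ c, prob P (fun ω => g (f ω)) c =
      ∑ b ∈ (univ.image f).filter (fun b => g b = c), prob P f b := by
    intro c
    unfold prob
    rw [Finset.sum_comm]
    refine Finset.sum_congr rfl fun ω _ => ?_
    rw [Finset.sum_ite_eq]
    simp only [Finset.mem_filter, Finset.mem_image, Finset.mem_univ, true_and]
    by_cases hc : g (f ω) = c
    · rw [if_pos hc, if_pos ⟨⟨ω, rfl⟩, hc⟩]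
    · rw [if_neg hc, if_neg (fun h => hc h.2)]
  have h2 : ∑ c ∈ univ.image (fun ω => g (f ω)), Real.negMulLog (prob P (fun ω => g (f ω)) c) ≤
      ∑ c ∈ univ.image (fun ω => g (f ω)),
        ∑ b ∈ (univ.image f).filter (fun b => g b = c), Real.negMulLog (prob P f b) := by
    refine Finset.sum_le_sum fun c _ => ?_
    rw [h1]
    exact nml_sum _ _ fun b _ => prob_nonneg hP f b
  refine h2.trans (le_of_eq ?_)
  apply Finset.sum_fiberwise_of_maps_to
  intro b hb
  rw [Finset.mem_image] at hb ⊢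
  obtain ⟨ω, h3, rfl⟩ := hb
  exact ⟨ω, h3, rfl⟩

/-- the entropy depends only on the law, transported by an equivalence -/
theorem prob_equiv {Ω' : Type} [Fintype Ω'] (e : Ω' ≃ Ω) (f : Ω → β) (b : β) :
    prob (fun ω => P (e ω)) (fun ω => f (e ω)) b = prob P f b := by
  classical
  unfold prob
  exact Equiv.sum_comp e (fun ω => if f ω = b then P ω else 0)

theorem hent_equiv {Ω' : Type} [Fintype Ω'] (e : Ω' ≃ Ω) (f : Ω → β) :
    hent (fun ω => P (e ω)) (fun ω => f (e ω)) = hent P f := by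
  classical
  unfold hent
  have h1 : univ.image (fun ω => f (e ω)) = univ.image f := by
    ext b
    simp only [Finset.mem_image, Finset.mem_univ, true_and]
    exact ⟨fun ⟨ω, h⟩ => ⟨e ω, h⟩, fun ⟨ω, h⟩ => ⟨e.symm ω, by simpa using h⟩⟩
  rw [h1]
  exact Finset.sum_congr rfl fun b _ => by rw [prob_equiv]

/-- independent pairs -/
theorem hent_prod {Ω' : Type} [Fintype Ω'] {Q : Ω' → ℝ} (hP1 : ∑ ω, P ω = 1)
    (hQ1 : ∑ ω, Q ω = 1) (f : Ω → β) (g : Ω' → γ) :
    hent (fun x : Ω × Ω' => P x.1 * Q x.2) (fun x => (f x.1, g x.2)) = hent P f + hent Q g := by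
  classical
  have h1 : hent (fun x : Ω × Ω' => P x.1 * Q x.2) (fun x => (f x.1, g x.2)) =
      ∑ b ∈ univ.image f ×ˢ univ.image g,
        Real.negMulLog (prob (fun x : Ω × Ω' => P x.1 * Q x.2) (fun x => (f x.1, g x.2)) b) := by
    unfold hent
    refine Finset.sum_congr ?_ (fun _ _ => rfl)
    ext ⟨b, c⟩
    simp only [Finset.mem_image, Finset.mem_univ, true_and, Finset.mem_product, Prod.exists,
      Prod.mk.injEq]
    exact ⟨fun ⟨x, y, h1, h2⟩ => ⟨⟨x, h1⟩, ⟨y, h2⟩⟩, fun ⟨⟨x, h1⟩, ⟨y, h2⟩⟩ => ⟨x, y, h1, h2⟩⟩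
  have h2 : ∀ b c, prob (fun x : Ω × Ω' => P x.1 * Q x.2) (fun x => (f x.1, g x.2)) (b, c) =
      prob P f b * prob Q g c := by
    intro b c
    unfold prob
    rw [Fintype.sum_prod_type, Finset.sum_mul_sum]
    refine Finset.sum_congr rfl fun x _ => Finset.sum_congr rfl fun y _ => ?_
    by_cases h3 : f x = b
    · by_cases h4 : g y = c
      · simp [h3, h4]
      · simp [h3, h4]
    · simp [h3]
  rw [h1, Finset.sum_product]
  have h3 : ∀ b c, Real.negMulLog (prob (fun x : Ω × Ω' => P x.1 * Q x.2)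
      (fun x => (f x.1, g x.2)) (b, c)) = prob Q g c * Real.negMulLog (prob P f b) +
        prob P f b * Real.negMulLog (prob Q g c) := by
    intro b c
    rw [h2, Real.negMulLog_mul]
  simp only [h3]
  simp only [Finset.sum_add_distrib, ← Finset.sum_mul, ← Finset.mul_sum]
  have e1 := sum_prob (P := P) f
  have e2 := sum_prob (P := Q) g
  rw [hP1] at e1
  rw [hQ1] at e2
  unfold hent
  have e1' : ∑ b ∈ univ.image f, prob P f b = 1 := by convert e1
  have e2' : ∑ b ∈ univ.image g, prob Q g b = 1 := by convert e2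
  rw [e1', e2', one_mul, one_mul]

end entropy

section walk

variable {A : Type} [Fintype A]

/-- entropy of the random sum of `n` terms -/
noncomputable def Hn (lam : ℝ) (t p : A → ℝ) (n : ℕ) : ℝ :=
  hent (pw p) (fun w : Fin n → A => XX lam t w)

theorem pw_append (p : A → ℝ) {m n : ℕ} (u : Fin m → A) (v : Fin n → A) :
    pw p (Fin.append u v) = pw p u * pw p v := by
  unfold pw
  rw [Fin.prod_univ_add]
  congr 1
  · exact Finset.prod_congr rfl fun i _ => by simp
  · exact Finset.prod_congr rfl fun i _ => by simp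

theorem Hn_sub {lam : ℝ} {t p : A → ℝ} (hp : ∀ a, 0 < p a) (hp1 : ∑ a, p a = 1) :
    Subadditive (Hn lam t p) := by
  intro m n
  have h1 : Hn lam t p (m + n) = hent (fun x : (Fin m → A) × (Fin n → A) => pw p x.1 * pw p x.2)
      (fun x => (fun z : ℝ × ℝ => z.1 + lam ^ m * z.2) (XX lam t x.1, XX lam t x.2)) := by
    unfold Hn
    rw [← hent_equiv (Fin.appendEquiv (α := A) m n)]
    have e1 : (fun ω : (Fin m → A) × (Fin n → A) => pw p (Fin.appendEquiv m n ω)) =
        fun x : (Fin m → A) × (Fin n → A) => pw p x.1 * pw p x.2 := by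
      funext x
      exact pw_append p x.1 x.2
    have e2 : (fun ω : (Fin m → A) × (Fin n → A) => XX lam t (Fin.appendEquiv m n ω)) =
        fun x => (fun z : ℝ × ℝ => z.1 + lam ^ m * z.2) (XX lam t x.1, XX lam t x.2) := by
      funext x
      exact XX_append lam t x.1 x.2
    rw [e1, e2]
  rw [h1]
  refine (hent_comp (fun x => mul_nonneg (pw_pos hp _).le (pw_pos hp _).le)
    (fun x : (Fin m → A) × (Fin n → A) => (XX lam t x.1, XX lam t x.2))
    (fun z : ℝ × ℝ => z.1 + lam ^ m * z.2)).trans (le_of_eq ?_)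
  exact hent_prod (sum_pw hp1 m) (sum_pw hp1 n) _ _

theorem Hn_nonneg {lam : ℝ} {t p : A → ℝ} (hp : ∀ a, 0 < p a) (hp1 : ∑ a, p a = 1) (n : ℕ) :
    0 ≤ Hn lam t p n := hent_nonneg (fun w => (pw_pos hp w).le) (sum_pw hp1 n) _

theorem Hn_lim {lam : ℝ} {t p : A → ℝ} (hp : ∀ a, 0 < p a) (hp1 : ∑ a, p a = 1) :
    Tendsto (fun n : ℕ => Hn lam t p n / n) atTop (nhds (Hn_sub (lam := lam) (t := t) hp hp1).lim) := by
  apply (Hn_sub hp hp1).tendsto_lim
  refine ⟨0, ?_⟩
  rintro _ ⟨n, rfl⟩
  exact div_nonneg (Hn_nonneg hp hp1 n) (Nat.cast_nonneg _)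

/-- probability of a value of the random sum -/
noncomputable def pv (lam : ℝ) (t p : A → ℝ) (n : ℕ) (y : vals lam t n) : ℝ :=
  prob (pw p) (fun w : Fin n → A => XX lam t w) (y : ℝ)

theorem pv_pos {lam : ℝ} {t p : A → ℝ} (hp : ∀ a, 0 < p a) {n : ℕ} (y : vals lam t n) :
    0 < pv lam t p n y := by
  classical
  obtain ⟨w, hw⟩ := mem_vals.1 y.2
  unfold pv prob
  refine Finset.sum_pos' (fun v _ => ?_) ⟨w, Finset.mem_univ w, ?_⟩
  · split_ifs
    · exact (pw_pos hp v).le
    · exact le_rfl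
  · rw [if_pos hw]
    exact pw_pos hp w

theorem vals_eq (lam : ℝ) (t : A → ℝ) (n : ℕ) :
    vals lam t n = @Finset.image _ _ (Classical.decEq ℝ) (fun w : Fin n → A => XX lam t w) univ := by
  ext y
  rw [mem_vals]
  simp

theorem sum_pv {lam : ℝ} {t p : A → ℝ} (hp1 : ∑ a, p a = 1) (n : ℕ) :
    ∑ y, pv lam t p n y = 1 := by
  classical
  unfold pv
  rw [Finset.sum_coe_sort (vals lam t n) (fun y => prob (pw p) (fun w : Fin n → A => XX lam t w) y),
    vals_eq]
  have := sum_prob (P := pw p) (fun w : Fin n → A => XX lam t w)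
  rw [sum_pw hp1 n] at this
  convert this

theorem ent_pv {lam : ℝ} {t p : A → ℝ} (n : ℕ) :
    ∑ y, Real.negMulLog (pv lam t p n y) = Hn lam t p n := by
  classical
  unfold pv
  rw [Finset.sum_coe_sort (vals lam t n)
    (fun y => Real.negMulLog (prob (pw p) (fun w : Fin n → A => XX lam t w) y)), vals_eq]
  unfold Hn hent
  congr 1

/-- grouping of the words by their values -/
theorem SR_group {lam : ℝ} {t p : A → ℝ} {μ : Measure ℝ} (h : SR lam t p μ) (n : ℕ) :
    SR (lam ^ n) (fun y : vals lam t n => (y : ℝ)) (pv lam t p n) μ := by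
  classical
  intro B hB
  rw [SR_iter h n B hB]
  unfold pv prob
  simp only [Finset.sum_mul]
  rw [Finset.sum_comm]
  refine Finset.sum_congr rfl fun w _ => ?_
  have hw : XX lam t w ∈ vals lam t n := mem_vals.2 ⟨w, rfl⟩
  rw [Finset.sum_eq_single ⟨XX lam t w, hw⟩]
  · rw [if_pos rfl]
  · intro y _ hy
    rw [if_neg, zero_mul]
    intro h1
    exact hy (Subtype.ext h1.symm)
  · intro h1
    exact absurd (Finset.mem_univ _) h1

/-- grouping of letters -/
theorem SR_map {T : Type} [Fintype T] {lam : ℝ} {t p : A → ℝ} {t' : T → ℝ} {μ : Measure ℝ}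
    (f : A → T) (hf : ∀ a, t' (f a) = t a) (h : SR lam t p μ) :
    SR lam t' (prob p f) μ := by
  classical
  intro B hB
  rw [h B hB]
  unfold prob
  simp only [Finset.sum_mul]
  rw [Finset.sum_comm]
  refine Finset.sum_congr rfl fun a _ => ?_
  rw [Finset.sum_eq_single (f a)]
  · rw [if_pos rfl, hf]
  · intro y _ hy
    rw [if_neg (fun h1 => hy h1.symm), zero_mul]
  · intro h1
    exact absurd (Finset.mem_univ _) h1

/-- grouping of the first parts of padded words -/
theorem SR_pad {lam : ℝ} {t p : A → ℝ} {μ : Measure ℝ} (h : SR lam t p μ) (n D : ℕ) :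
    SR (lam ^ (n + D)) (fun x : vals lam t n × (Fin D → A) => (x.1 : ℝ) + lam ^ n * XX lam t x.2)
      (fun x => pv lam t p n x.1 * pw p x.2) μ := by
  classical
  have h1 : SR (lam ^ (n + D))
      (fun x : (Fin n → A) × (Fin D → A) => XX lam t x.1 + lam ^ n * XX lam t x.2)
      (fun x => pw p x.1 * pw p x.2) μ := by
    intro B hB
    rw [SR_iter h (n + D) B hB, ← (Fin.appendEquiv (α := A) n D).sum_comp]
    refine Finset.sum_congr rfl fun x _ => ?_
    have e1 : pw p (Fin.appendEquiv n D x) = pw p x.1 * pw p x.2 := pw_append p x.1 x.2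
    have e2 : XX lam t (Fin.appendEquiv n D x) = XX lam t x.1 + lam ^ n * XX lam t x.2 :=
      XX_append lam t x.1 x.2
    rw [e1]
    simp only [e2]
  have h2 := SR_map (t' := fun x : vals lam t n × (Fin D → A) =>
    (x.1 : ℝ) + lam ^ n * XX lam t x.2)
    (fun x : (Fin n → A) × (Fin D → A) =>
      ((⟨XX lam t x.1, mem_vals.2 ⟨x.1, rfl⟩⟩, x.2) : vals lam t n × (Fin D → A)))
    (fun _ => rfl) h1
  have h3 : prob (fun x : (Fin n → A) × (Fin D → A) => pw p x.1 * pw p x.2)
      (fun x : (Fin n → A) × (Fin D → A) =>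
        ((⟨XX lam t x.1, mem_vals.2 ⟨x.1, rfl⟩⟩, x.2) : vals lam t n × (Fin D → A))) =
      fun x => pv lam t p n x.1 * pw p x.2 := by
    funext ⟨y, v⟩
    unfold pv prob
    rw [Fintype.sum_prod_type, Finset.sum_mul]
    refine Finset.sum_congr rfl fun w _ => ?_
    rw [Finset.sum_eq_single v]
    · by_cases h4 : XX lam t w = (y : ℝ)
      · rw [if_pos h4, if_pos]
        rw [Prod.mk.injEq]
        exact ⟨Subtype.ext h4, rfl⟩
      · rw [if_neg h4, if_neg, zero_mul]
        rw [Prod.mk.injEq]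
        rintro ⟨h5, -⟩
        exact h4 (congrArg Subtype.val h5)
    · intro v' _ hv'
      rw [if_neg]
      rw [Prod.mk.injEq]
      rintro ⟨-, h5⟩
      exact hv' h5
    · intro h5
      exact absurd (Finset.mem_univ _) h5
  rw [h3] at h2
  exact h2

end walk

end Pool.Agent.Y293.OV
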