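import Mathlib

/-!
# Quotients of polynomials with bounded coefficients have coefficients of polynomial growth
-/

set_option autoImplicit false

open Finset Polynomial

namespace Pool.Agent.Y293.OV

theorem coeff_sub_mul (z : ℂ) (w : ℂ[X]) (i : ℕ) :
    ((X - C z) * w).coeff (i + 1) = w.coeff i - z * w.coeff (i + 1) := by
  rw [sub_mul, coeff_sub, coeff_X_mul, coeff_C_mul]

theorem coeff_sub_mul_zero (z : ℂ) (w : ℂ[X]) :
    ((X - C z) * w).coeff 0 = - (z * w.coeff 0) := by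
  rw [sub_mul, coeff_sub, coeff_X_mul_zero, coeff_C_mul, zero_sub]

/-- division by one linear factor -/
theorem quot_one (z : ℂ) (k : ℕ) : ∃ C0 : ℝ, 0 ≤ C0 ∧ ∀ (w : ℂ[X]) (B : ℝ), 0 ≤ B →
    (∀ i : ℕ, ‖((X - C z) * w).coeff i‖ ≤ B * ((i : ℝ) + 1) ^ k) →
    ∀ i : ℕ, ‖w.coeff i‖ ≤ C0 * B * ((i : ℝ) + 1) ^ (k + 1) := by
  rcases le_or_gt 1 ‖z‖ with hz | hz
  · refine ⟨1, zero_le_one, fun w B hB h i => ?_⟩
    rw [one_mul]
    induction i with
    | zero =>
      have h0 := h 0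
      rw [coeff_sub_mul_zero, norm_neg, norm_mul] at h0
      have h1 : ‖w.coeff 0‖ ≤ ‖z‖ * ‖w.coeff 0‖ := by
        nlinarith [norm_nonneg (w.coeff 0)]
      simp at h0 ⊢
      linarith
    | succ i ih =>
      have h0 := h (i + 1)
      rw [coeff_sub_mul] at h0
      have h1 : ‖w.coeff (i + 1)‖ ≤ ‖z * w.coeff (i + 1)‖ := by
        rw [norm_mul]
        nlinarith [norm_nonneg (w.coeff (i + 1))]
      have h2 : ‖z * w.coeff (i + 1)‖ ≤ ‖w.coeff i‖ + ‖w.coeff i - z * w.coeff (i + 1)‖ := by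
        have := norm_sub_le (w.coeff i) (w.coeff i - z * w.coeff (i + 1))
        simpa using this
      have h3 : ((i : ℝ) + 1) ^ (k + 1) ≤ ((i : ℝ) + 1) * (((i + 1 : ℕ) : ℝ) + 1) ^ k := by
        rw [pow_succ, mul_comm]
        apply mul_le_mul_of_nonneg_left _ (by positivity)
        apply pow_le_pow_left₀ (by positivity)
        push_cast
        linarith
      have h4 : B * ((i : ℝ) + 1) ^ (k + 1) + B * (((i + 1 : ℕ) : ℝ) + 1) ^ k ≤
          B * (((i + 1 : ℕ) : ℝ) + 1) ^ (k + 1) := by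
        have e1 : B * ((i : ℝ) + 1) ^ (k + 1) ≤
          B * (((i : ℝ) + 1) * (((i + 1 : ℕ) : ℝ) + 1) ^ k) := mul_le_mul_of_nonneg_left h3 hB
        have e2 : B * (((i + 1 : ℕ) : ℝ) + 1) ^ (k + 1) =
          B * (((i : ℝ) + 1) * (((i + 1 : ℕ) : ℝ) + 1) ^ k) + B * (((i + 1 : ℕ) : ℝ) + 1) ^ k := by
          rw [pow_succ]
          push_cast
          ring
        linarith
      linarith
  · have hsum : Summable (fun l : ℕ => (((l : ℝ) + 2) ^ k) * ‖z‖ ^ l) := by
      have h1 : Summable (fun l : ℕ => ((l : ℝ) ^ k) * ‖z‖ ^ l) :=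
        summable_pow_mul_geometric_of_norm_lt_one k (by rwa [Real.norm_of_nonneg (norm_nonneg z)])
      have h2 : Summable (fun l : ℕ => ‖z‖ ^ l) :=
        summable_geometric_of_lt_one (norm_nonneg z) hz
      have h3 : Summable (fun l : ℕ => (3 : ℝ) ^ k * (((l : ℝ) ^ k) * ‖z‖ ^ l) +
          (3 : ℝ) ^ k * ‖z‖ ^ l) := (h1.mul_left _).add (h2.mul_left _)
      refine Summable.of_nonneg_of_le (fun l => by positivity) (fun l => ?_) h3
      have e1 : ((l : ℝ) + 2) ^ k ≤ 3 ^ k * (l : ℝ) ^ k + 3 ^ k := by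
        rcases Nat.eq_zero_or_pos l with h | h
        · subst h
          have a1 : ((0 : ℕ) : ℝ) + 2 = 2 := by norm_num
          rw [a1]
          have a2 : (2 : ℝ) ^ k ≤ 3 ^ k := pow_le_pow_left₀ (by norm_num) (by norm_num) k
          have a3 : (0 : ℝ) ≤ 3 ^ k * ((0 : ℕ) : ℝ) ^ k := by positivity
          linarith
        · have h' : (1 : ℝ) ≤ l := by exact_mod_cast h
          have a1 : ((l : ℝ) + 2) ^ k ≤ (3 * (l : ℝ)) ^ k :=
            pow_le_pow_left₀ (by positivity) (by linarith) k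
          rw [mul_pow] at a1
          have a2 : (0 : ℝ) ≤ 3 ^ k := by positivity
          linarith
      have e2 : (0 : ℝ) ≤ ‖z‖ ^ l := by positivity
      calc ((l : ℝ) + 2) ^ k * ‖z‖ ^ l ≤ (3 ^ k * (l : ℝ) ^ k + 3 ^ k) * ‖z‖ ^ l :=
            mul_le_mul_of_nonneg_right e1 e2
        _ = _ := by ring
    refine ⟨∑' l : ℕ, (((l : ℝ) + 2) ^ k) * ‖z‖ ^ l, tsum_nonneg fun l => by positivity,
      fun w B hB h i => ?_⟩
    -- formula for the coefficients
    have key : ∀ N : ℕ, w.coeff i = ∑ l ∈ range N, ((X - C z) * w).coeff (i + 1 + l) * z ^ l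
        + z ^ N * w.coeff (i + N) := by
      intro N
      induction N with
      | zero => simp
      | succ N ih =>
        rw [Finset.sum_range_succ, ih]
        have e : ((X - C z) * w).coeff (i + 1 + N) = w.coeff (i + N) - z * w.coeff (i + N + 1) := by
          have := coeff_sub_mul z w (i + N)
          rw [← this]
          congr 1
          omega
        rw [e, pow_succ]
        have e' : i + (N + 1) = i + N + 1 := by omega
        rw [e']
        ring
    have hN := key (w.natDegree + 1)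
    rw [coeff_eq_zero_of_natDegree_lt (show w.natDegree < i + (w.natDegree + 1) by omega), mul_zero,
      add_zero] at hN
    rw [hN]
    refine (norm_sum_le _ _).trans ?_
    have h1 : ∀ l ∈ range (w.natDegree + 1),
        ‖((X - C z) * w).coeff (i + 1 + l) * z ^ l‖ ≤
          (B * ((i : ℝ) + 1) ^ (k + 1)) * ((((l : ℝ) + 2) ^ k) * ‖z‖ ^ l) := by
      intro l _
      rw [norm_mul, norm_pow]
      have a1 := h (i + 1 + l)
      rw [show (((i + 1 + l : ℕ) : ℝ) + 1) = (((i + 1 + l : ℕ) : ℝ) + 1) from rfl] at a1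
      have a2 : (((i + 1 + l : ℕ) : ℝ) + 1) ^ k ≤ (((i : ℝ) + 1) * ((l : ℝ) + 2)) ^ k := by
        apply pow_le_pow_left₀ (by positivity)
        push_cast
        nlinarith [Nat.cast_nonneg (α := ℝ) i, Nat.cast_nonneg (α := ℝ) l]
      rw [mul_pow] at a2
      have a3 : ((i : ℝ) + 1) ^ k ≤ ((i : ℝ) + 1) ^ (k + 1) :=
        pow_le_pow_right₀ (by linarith [Nat.cast_nonneg (α := ℝ) i]) (Nat.le_succ k)
      have a4 : (0 : ℝ) ≤ ((l : ℝ) + 2) ^ k := by positivity
      have a5 : ‖((X - C z) * w).coeff (i + 1 + l)‖ ≤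
          B * (((i : ℝ) + 1) ^ (k + 1) * ((l : ℝ) + 2) ^ k) := by
        have a7 := a2.trans (mul_le_mul_of_nonneg_right a3 a4)
        exact a1.trans (mul_le_mul_of_nonneg_left a7 hB)
      have a6 : (0 : ℝ) ≤ ‖z‖ ^ l := by positivity
      calc ‖((X - C z) * w).coeff (i + 1 + l)‖ * ‖z‖ ^ l
          ≤ B * (((i : ℝ) + 1) ^ (k + 1) * ((l : ℝ) + 2) ^ k) * ‖z‖ ^ l :=
            mul_le_mul_of_nonneg_right a5 a6
        _ = _ := by ring
    refine (Finset.sum_le_sum h1).trans ?_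
    rw [← Finset.mul_sum]
    have h2 : ∑ l ∈ range (w.natDegree + 1), (((l : ℝ) + 2) ^ k) * ‖z‖ ^ l ≤
        ∑' l : ℕ, (((l : ℝ) + 2) ^ k) * ‖z‖ ^ l :=
      hsum.sum_le_tsum _ fun l _ => by positivity
    calc B * ((i : ℝ) + 1) ^ (k + 1) * ∑ l ∈ range (w.natDegree + 1), (((l : ℝ) + 2) ^ k) * ‖z‖ ^ l
        ≤ B * ((i : ℝ) + 1) ^ (k + 1) * ∑' l : ℕ, (((l : ℝ) + 2) ^ k) * ‖z‖ ^ l :=
          mul_le_mul_of_nonneg_left h2 (by positivity)
      _ = _ := by ring

/-- division by a product of linear factors -/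
theorem quot_prod (s : Multiset ℂ) : ∀ k : ℕ, ∃ (C0 : ℝ) (k' : ℕ), 0 ≤ C0 ∧
    ∀ (H : ℂ[X]) (B : ℝ), 0 ≤ B →
      (∀ i : ℕ, ‖((s.map (fun z => X - C z)).prod * H).coeff i‖ ≤ B * ((i : ℝ) + 1) ^ k) →
      ∀ i : ℕ, ‖H.coeff i‖ ≤ C0 * B * ((i : ℝ) + 1) ^ k' := by
  induction s using Multiset.induction_on with
  | empty =>
    intro k
    refine ⟨1, k, zero_le_one, fun H B _ h i => ?_⟩
    simpa using h i
  | cons z s ih =>
    intro k
    obtain ⟨C1, hC1, h1⟩ := quot_one z k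
    obtain ⟨C2, k', hC2, h2⟩ := ih (k + 1)
    refine ⟨C2 * C1, k', mul_nonneg hC2 hC1, fun H B hB h i => ?_⟩
    have h3 := h1 ((s.map (fun z => X - C z)).prod * H) B hB (fun i => by
      have := h i
      rwa [Multiset.map_cons, Multiset.prod_cons, mul_assoc] at this)
    have h4 := h2 H (C1 * B) (mul_nonneg hC1 hB) h3 i
    rw [mul_assoc C2 C1 B]
    exact h4

/-- quotients of integer polynomials with bounded coefficients -/
theorem quot_int (m : ℤ[X]) (hm : m ≠ 0) : ∃ (C0 : ℝ) (k : ℕ), 0 ≤ C0 ∧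
    ∀ (H : ℤ[X]) (B : ℝ), 0 ≤ B → (∀ i : ℕ, |(((m * H).coeff i : ℤ) : ℝ)| ≤ B) →
      ∀ i : ℕ, |((H.coeff i : ℤ) : ℝ)| ≤ C0 * B * ((i : ℝ) + 1) ^ k := by
  obtain ⟨C0, k, hC0, h⟩ := quot_prod (m.map (Int.castRingHom ℂ)).roots 0
  refine ⟨C0, k, hC0, fun H B hB hG i => ?_⟩
  have hinj : Function.Injective (Int.castRingHom ℂ) := RingHom.injective_int _
  set mc := m.map (Int.castRingHom ℂ) with hmc
  have hlead : mc.leadingCoeff = ((m.leadingCoeff : ℤ) : ℂ) := by
    rw [hmc, leadingCoeff_map_of_injective hinj]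
    rfl
  have hl1 : (1 : ℝ) ≤ |((m.leadingCoeff : ℤ) : ℝ)| := by
    have : m.leadingCoeff ≠ 0 := leadingCoeff_ne_zero.2 hm
    have h1 := Int.one_le_abs this
    exact_mod_cast h1
  have hfac : C mc.leadingCoeff * (mc.roots.map (fun z => X - C z)).prod = mc :=
    C_leadingCoeff_mul_prod_multiset_X_sub_C IsAlgClosed.card_roots_eq_natDegree
  have h1 : ∀ i : ℕ, ‖((mc.roots.map (fun z => X - C z)).prod * H.map (Int.castRingHom ℂ)).coeff i‖
      ≤ B * ((i : ℝ) + 1) ^ 0 := by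
    intro i
    rw [pow_zero, mul_one]
    have e1 : (m * H).map (Int.castRingHom ℂ) =
        C mc.leadingCoeff * ((mc.roots.map (fun z => X - C z)).prod *
          H.map (Int.castRingHom ℂ)) := by
      rw [Polynomial.map_mul, ← mul_assoc, hfac]
    have e2 : ‖((m * H).map (Int.castRingHom ℂ)).coeff i‖ ≤ B := by
      rw [coeff_map, eq_intCast, Complex.norm_intCast]
      exact hG i
    rw [e1, coeff_C_mul, norm_mul, hlead, Complex.norm_intCast] at e2
    have e3 := norm_nonneg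
      (((mc.roots.map (fun z => X - C z)).prod * H.map (Int.castRingHom ℂ)).coeff i)
    nlinarith
  have h2 := h (H.map (Int.castRingHom ℂ)) B hB h1 i
  rw [coeff_map, eq_intCast, Complex.norm_intCast] at h2
  exact h2

end Pool.Agent.Y293.OV
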