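import Pool.Agent.Y293.EM.Mu

/-!
# Entropy of the self-similar measure, relative to a part of the letters
-/

set_option autoImplicit false

open Finset Filter MeasureTheory

namespace Pool.Agent.Y293.OV

open H517.EO Pool.Agent.Y293.EM

section point

variable {A : Type} [Fintype A] [DecidableEq A]

/-- the finite estimate for one shift -/
theorem ent_point {lam : ℝ} {t p : A → ℝ} (hp : ∀ a, 0 < p a) (hp1 : ∑ a, p a = 1) {n j : ℕ}
    {L : ℝ}
    (hent : ∀ y η : ℝ, 0 < η → η ≤ lam ^ (n * j) → L ≤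
        ∑ V : Fin j → Fin n → A, pw (pw p) V *
          Hd (fun σ : Fin j → Equiv.Perm (Fin n) =>
            ⌊(X2 lam t (fun i => V i ∘ σ i) + y) / η⌋))
    {η s : ℝ} (hη : 0 < η) (hηw : η ≤ lam ^ (n * j)) (z : ℝ) (K : Finset ℤ)
    (hK : ∀ U : Fin j → Fin n → A, ⌊(z + X2 lam t U) / η + s⌋ ∈ K) :
    L ≤ ∑ b ∈ K, Real.negMulLog (∑ U : Fin j → Fin n → A,
      if ⌊(z + X2 lam t U) / η + s⌋ = b then pw (pw p) U else 0) := by
  classical
  have hPP : ∀ (V : Fin j → Fin n → A), 0 ≤ pw (pw p) V := fun V =>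
    pw_nonneg (fun v => pw_nonneg (fun a => (hp a).le) v) V
  have hPP1 : ∑ V : Fin j → Fin n → A, pw (pw p) V = 1 := sum_pw (sum_pw hp1 n) j
  have hf : ∀ V : Fin j → Fin n → A, ⌊(X2 lam t V + (z + s * η)) / η⌋ =
      ⌊(z + X2 lam t V) / η + s⌋ := by
    intro V
    congr 1
    field_simp
    ring
  let act : (Fin j → Equiv.Perm (Fin n)) → Equiv.Perm (Fin j → Fin n → A) := fun σ =>
    Equiv.piCongrRight fun i => Equiv.arrowCongr (σ i).symm (Equiv.refl A)
  have hact : ∀ σ V, act σ V = fun i => V i ∘ σ i := by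
    intro σ V
    funext i k
    simp [act, Equiv.arrowCongr]
  have h1 := conc (pw (pw p)) hPP hPP1 act (fun σ V => by
    rw [hact]
    unfold pw
    refine Finset.prod_congr rfl fun i _ => ?_
    exact Equiv.prod_comp (σ i) (fun k => p (V i k)))
    (fun V => ⌊(z + X2 lam t V) / η + s⌋) K hK
  refine le_trans (hent (z + s * η) η hη hηw) ?_
  refine le_trans (le_of_eq ?_) h1
  refine Finset.sum_congr rfl fun V _ => ?_
  simp only [hact]
  congr 2
  funext σ
  exact hf _

end point

section rel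

variable {A V : Type} [Fintype A] [Fintype V]

/-- splitting of words of pairs -/
def splitE (j n : ℕ) : (Fin j → Fin n → A × V) ≃ (Fin j → Fin n → A) × (Fin j → Fin n → V) where
  toFun Z := (fun i k => (Z i k).1, fun i k => (Z i k).2)
  invFun Y := fun i k => (Y.1 i k, Y.2 i k)
  left_inv _ := rfl
  right_inv _ := rfl

theorem XX_add {lam : ℝ} (t : A → ℝ) (s : V → ℝ) {n : ℕ} (u : Fin n → A) (v : Fin n → V) :
    XX lam (fun x : A × V => t x.1 + s x.2) (fun k => (u k, v k)) = XX lam t u + XX lam s v := by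
  unfold XX
  rw [← Finset.sum_add_distrib]
  refine Finset.sum_congr rfl fun i _ => ?_
  ring

theorem pw_mul (p : A → ℝ) (q : V → ℝ) {n : ℕ} (u : Fin n → A) (v : Fin n → V) :
    pw (fun x : A × V => p x.1 * q x.2) (fun k => (u k, v k)) = pw p u * pw q v := by
  unfold pw
  rw [← Finset.prod_mul_distrib]

theorem X2_add {lam : ℝ} (t : A → ℝ) (s : V → ℝ) {j n : ℕ} (U : Fin j → Fin n → A)
    (W : Fin j → Fin n → V) :
    X2 lam (fun x : A × V => t x.1 + s x.2) (fun i k => (U i k, W i k)) =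
      X2 lam t U + X2 lam s W := by
  unfold X2 XX
  rw [← Finset.sum_add_distrib]
  refine Finset.sum_congr rfl fun i _ => ?_
  rw [← mul_add, ← Finset.sum_add_distrib]
  congr 1
  refine Finset.sum_congr rfl fun k _ => ?_
  ring

theorem pw2_mul (p : A → ℝ) (q : V → ℝ) {j n : ℕ} (U : Fin j → Fin n → A)
    (W : Fin j → Fin n → V) :
    pw (pw (fun x : A × V => p x.1 * q x.2)) (fun i k => (U i k, W i k)) =
      pw (pw p) U * pw (pw q) W := by
  unfold pw
  rw [← Finset.prod_mul_distrib]
  refine Finset.prod_congr rfl fun i _ => ?_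
  rw [← Finset.prod_mul_distrib]

variable [DecidableEq A]

/-- entropy of the measure at the scales `lam ^ N`, all shifts, for systems with letters in a
product of which only the first factor is free -/
theorem ent_mu_rel {lam M : ℝ} {t p : A → ℝ} {s' q : V → ℝ} {μ : Measure ℝ}
    [IsProbabilityMeasure μ]
    (hl0 : 0 < lam) (hl1 : lam < 1) (hfree : Free lam t) (hp : ∀ a, 0 < p a)
    (hp1 : ∑ a, p a = 1) (hq : ∀ v, 0 ≤ q v) (hq1 : ∑ v, q v = 1)
    (h : SR lam (fun x : A × V => t x.1 + s' x.2) (fun x : A × V => p x.1 * q x.2) μ)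
    (hM : ∀ x : A × V, |t x.1 + s' x.2| ≤ M * (1 - lam))
    (ε : ℝ) (hε : 0 < ε) (N0 : ℕ) : ∃ N : ℕ, N0 ≤ N ∧ ∀ (η s : ℝ) (K : Finset ℤ),
      0 < η → η ≤ lam ^ N → (∀ x ∈ Set.Icc (-M) M, ⌊x / η + s⌋ ∈ K) →
      (N : ℝ) * (min (∑ a, Real.negMulLog (p a)) (Real.log (1 / lam)) - ε) ≤
        ∑ b ∈ K, Real.negMulLog (μ.real {x : ℝ | ⌊x / η + s⌋ = b}) := by
  classical
  obtain ⟨n, j, hn, hN, hent⟩ := ent_words hl0 hl1 hfree hp hp1 ε hε N0
  refine ⟨n * j, hN, fun η s K hη hηw hK => ?_⟩
  set w : ℝ := lam ^ (n * j) with hw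
  set L : ℝ := ((n * j : ℕ) : ℝ) * (min (∑ a, Real.negMulLog (p a)) (Real.log (1 / lam)) - ε)
    with hL
  have hw0 : 0 < w := pow_pos hl0 _
  have hw' : w = (lam ^ n) ^ j := by rw [hw, pow_mul]
  have hSR := SR_iter (SR_iter h n) j
  have hPP : ∀ (U : Fin j → Fin n → A), 0 ≤ pw (pw p) U := fun U =>
    pw_nonneg (fun v => pw_nonneg (fun a => (hp a).le) v) U
  have hPP1 : ∑ U : Fin j → Fin n → A, pw (pw p) U = 1 := sum_pw (sum_pw hp1 n) j
  have hQQ : ∀ (W : Fin j → Fin n → V), 0 ≤ pw (pw q) W := fun W =>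
    pw_nonneg (fun v => pw_nonneg hq v) W
  have hQQ1 : ∑ W : Fin j → Fin n → V, pw (pw q) W = 1 := sum_pw (sum_pw hq1 n) j
  have hPQ : ∀ x : A × V, 0 ≤ p x.1 * q x.2 := fun x => mul_nonneg (hp _).le (hq _)
  have hPQ1 : ∑ x : A × V, p x.1 * q x.2 = 1 := by
    rw [Fintype.sum_prod_type]
    simp only
    rw [← Finset.sum_mul_sum, hp1, hq1, one_mul]
  -- the maps preserve the interval
  have hmaps : ∀ (U : Fin j → Fin n → A) (W : Fin j → Fin n → V), ∀ x ∈ Set.Icc (-M) M,
      (w * x + X2 lam s' W) + X2 lam t U ∈ Set.Icc (-M) M := by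
    intro U W x hx
    have hln0 : 0 < lam ^ n := pow_pos hl0 n
    have h1 : |X2 lam (fun x : A × V => t x.1 + s' x.2) (fun i k => (U i k, W i k))| ≤
        M * (1 - (lam ^ n) ^ j) :=
      XX_bound (t := fun v : Fin n → A × V => XX lam (fun x : A × V => t x.1 + s' x.2) v) hln0
        (fun v => XX_bound hl0 hM v) (fun i k => (U i k, W i k))
    rw [← hw', X2_add] at h1
    have hx' := abs_le.2 (Set.mem_Icc.1 hx)
    have h2 := abs_add_le (w * x) (X2 lam t U + X2 lam s' W)
    rw [abs_mul, abs_of_pos hw0] at h2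
    have h3 := mul_le_mul_of_nonneg_left hx' hw0.le
    have h4 : (w * x + X2 lam s' W) + X2 lam t U = w * x + (X2 lam t U + X2 lam s' W) := by ring
    rw [h4]
    exact Set.mem_Icc.2 (abs_le.1 (by linarith))
  -- the pointwise laws
  let f : (Fin j → Fin n → V) → ℝ → (Fin j → Fin n → A) → ℤ := fun W x U =>
    ⌊((w * x + X2 lam s' W) + X2 lam t U) / η + s⌋
  let g : ℤ → (Fin j → Fin n → V) → ℝ → ℝ := fun b W x =>
    ∑ U, if f W x U = b then pw (pw p) U else 0
  have hfmeas : ∀ b W U, MeasurableSet {x : ℝ | f W x U = b} := by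
    intro b W U
    have h1 := meas_cell w (X2 lam s' W + X2 lam t U) η s b
    have h2 : ∀ x : ℝ, w * x + (X2 lam s' W + X2 lam t U) = (w * x + X2 lam s' W) + X2 lam t U :=
      fun x => by ring
    simp only [h2] at h1
    exact h1
  have hgmeas : ∀ b W, Measurable (g b W) := by
    intro b W
    apply Finset.measurable_sum
    intro U _
    exact Measurable.ite (hfmeas b W U) measurable_const measurable_const
  have hg0 : ∀ b W x, 0 ≤ g b W x := fun b W x => Finset.sum_nonneg fun U _ => by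
    split_ifs
    · exact hPP U
    · exact le_rfl
  have hg1 : ∀ b W x, g b W x ≤ 1 := by
    intro b W x
    rw [← hPP1]
    apply Finset.sum_le_sum
    intro U _
    split_ifs
    · exact le_rfl
    · exact hPP U
  have hgint : ∀ b W, Integrable (g b W) μ := by
    intro b W
    refine Integrable.of_bound (C := 1) (hgmeas b W).aestronglyMeasurable (ae_of_all _ fun x => ?_)
    rw [Real.norm_eq_abs, abs_of_nonneg (hg0 b W x)]
    exact hg1 b W x
  have hnint : ∀ b W, Integrable (fun x => Real.negMulLog (g b W x)) μ := by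
    intro b W
    refine Integrable.of_bound (C := 1)
      ((Real.continuous_negMulLog.measurable.comp (hgmeas b W)).aestronglyMeasurable)
      (ae_of_all _ fun x => ?_)
    rw [Real.norm_eq_abs, abs_of_nonneg (Real.negMulLog_nonneg (hg0 b W x) (hg1 b W x))]
    have := Real.negMulLog_le_one_sub_self (hg0 b W x)
    have := hg0 b W x
    linarith
  have hgval : ∀ b W, ∫ x, g b W x ∂μ = ∑ U, pw (pw p) U * μ.real {x : ℝ | f W x U = b} := by
    intro b W
    rw [integral_finset_sum]
    · refine Finset.sum_congr rfl fun U _ => ?_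
      have h3 : (fun x => if f W x U = b then pw (pw p) U else 0) =
          fun x => pw (pw p) U * ({x : ℝ | f W x U = b}.indicator 1 x) := by
        funext x
        by_cases hx : f W x U = b
        · simp [Set.indicator, hx]
        · simp [Set.indicator, hx]
      rw [h3, integral_const_mul, integral_indicator_one (hfmeas b W U)]
    · intro U _
      refine Integrable.of_bound (C := pw (pw p) U) ?_ (ae_of_all _ fun x => ?_)
      · exact (Measurable.ite (hfmeas b W U) measurable_const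
          measurable_const).aestronglyMeasurable
      · split_ifs
        · rw [Real.norm_eq_abs, abs_of_nonneg (hPP U)]
        · simp [hPP U]
  have hmass : ∀ b, μ.real {x : ℝ | ⌊x / η + s⌋ = b} =
      ∑ W, pw (pw q) W * ∫ x, g b W x ∂μ := by
    intro b
    have hB : MeasurableSet {x : ℝ | ⌊x / η + s⌋ = b} := by
      have := meas_cell 1 0 η s b
      simpa using this
    rw [hSR _ hB, ← (splitE (A := A) (V := V) j n).symm.sum_comp, Fintype.sum_prod_type,
      Finset.sum_comm]
    refine Finset.sum_congr rfl fun W _ => ?_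
    rw [hgval, Finset.mul_sum]
    refine Finset.sum_congr rfl fun U _ => ?_
    have h5 : pw (pw (fun x : A × V => p x.1 * q x.2)) ((splitE (A := A) (V := V) j n).symm (U, W)) =
        pw (pw p) U * pw (pw q) W := pw2_mul p q U W
    have h6 : XX (lam ^ n) (fun v : Fin n → A × V => XX lam (fun x : A × V => t x.1 + s' x.2) v)
        ((splitE (A := A) (V := V) j n).symm (U, W)) = X2 lam t U + X2 lam s' W := X2_add t s' U W
    rw [h5]
    simp only [h6]
    have h1 : ((fun x : ℝ => (lam ^ n) ^ j * x + (X2 lam t U + X2 lam s' W)) ⁻¹'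
        {x : ℝ | ⌊x / η + s⌋ = b}) = {x : ℝ | f W x U = b} := by
      ext x
      simp only [Set.mem_preimage, Set.mem_setOf_eq, f, hw']
      rw [show (lam ^ n) ^ j * x + (X2 lam t U + X2 lam s' W) =
        (lam ^ n) ^ j * x + X2 lam s' W + X2 lam t U by ring]
    rw [h1]
    ring
  have hjensen : ∀ b, ∑ W, pw (pw q) W * ∫ x, Real.negMulLog (g b W x) ∂μ ≤
      Real.negMulLog (μ.real {x : ℝ | ⌊x / η + s⌋ = b}) := by
    intro b
    rw [hmass b]
    have h1 : ∀ W, ∫ x, Real.negMulLog (g b W x) ∂μ ≤ Real.negMulLog (∫ x, g b W x ∂μ) := fun W =>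
      Real.concaveOn_negMulLog.le_map_integral Real.continuous_negMulLog.continuousOn
        isClosed_Ici (ae_of_all _ fun x => hg0 b W x) (hgint b W) (hnint b W)
    have h2 := Real.concaveOn_negMulLog.le_map_sum (t := Finset.univ)
      (w := fun W : Fin j → Fin n → V => pw (pw q) W) (p := fun W => ∫ x, g b W x ∂μ)
      (fun W _ => hQQ W) hQQ1 (fun W _ => Set.mem_Ici.2 (integral_nonneg fun x => hg0 b W x))
    simp only [smul_eq_mul] at h2
    refine le_trans ?_ h2
    exact Finset.sum_le_sum fun W _ => mul_le_mul_of_nonneg_left (h1 W) (hQQ W)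
  refine le_trans ?_ (Finset.sum_le_sum fun b _ => hjensen b)
  rw [Finset.sum_comm]
  have hsupp := SR_supp hl0 hl1 hPQ hPQ1 h hM
  have hW : ∀ W : Fin j → Fin n → V, pw (pw q) W * L ≤
      ∑ b ∈ K, pw (pw q) W * ∫ x, Real.negMulLog (g b W x) ∂μ := by
    intro W
    rw [← Finset.mul_sum, ← integral_finset_sum _ fun b _ => hnint b W]
    apply mul_le_mul_of_nonneg_left _ (hQQ W)
    have hconst : L = ∫ _, L ∂μ := by simp
    rw [hconst]
    refine integral_mono_ae (integrable_const _)
      (integrable_finset_sum _ fun b _ => hnint b W) ?_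
    filter_upwards [hsupp] with x hx
    exact ent_point hp hp1 hent hη hηw (w * x + X2 lam s' W) K
      (fun U => hK _ (hmaps U W x hx))
  refine le_trans (le_of_eq ?_) (Finset.sum_le_sum fun W _ => hW W)
  rw [← Finset.sum_mul, hQQ1, one_mul]

end rel

end Pool.Agent.Y293.OV
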